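import Pool.Agent.W338.CTNEU

/-! # Covering requires connecting; lower bound for the covering probability -/

set_option autoImplicit false

open scoped BigOperators ENNReal
open Pool.Agent.W823.CT Pool.Agent.W338.CTNEU

namespace Pool.Agent.W338.CTCOVCONN

variable {V : Type} [Fintype V] [DecidableEq V] {G : SimpleGraph V} [DecidableRel G.Adj]
  {κ : ℝ} {o : V}

/-- the invariant -/
def Inv (G : SimpleGraph V) [DecidableRel G.Adj] (h : List V) : Prop :=
  hed h ⊆ G.edgeFinset ∧ ∀ σ : V → Bool, (∀ a b, s(a, b) ∈ hed h → σ a = σ b) →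
    ∀ a ∈ h, ∀ b ∈ h, σ a = σ b

lemma inv_step {x y : V} {h : List V} (hI : Inv G (x :: h)) (hy : y ∈ G.neighborFinset x) :
    Inv G (y :: x :: h) := by
  have h1 : hed (y :: x :: h) = insert s(y, x) (hed (x :: h)) := rfl
  rw [SimpleGraph.mem_neighborFinset] at hy
  refine ⟨?_, fun σ hσ => ?_⟩
  · rw [h1, Finset.insert_subset_iff]
    refine ⟨?_, hI.1⟩
    rw [SimpleGraph.mem_edgeFinset, SimpleGraph.mem_edgeSet]
    exact hy.symm
  · have h2 := hI.2 σ (fun a b hab => hσ a b (by rw [h1]; exact Finset.mem_insert_of_mem hab))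
    have h3 : σ y = σ x := hσ y x (by rw [h1]; exact Finset.mem_insert_self _ _)
    have h4 : ∀ a ∈ y :: x :: h, σ a = σ x := by
      intro a ha
      rcases List.mem_cons.mp ha with rfl | ha
      · exact h3
      · exact h2 a ha x List.mem_cons_self
    intro a ha b hb
    rw [h4 a ha, h4 b hb]

lemma wstep_le_inv (hG : G.Connected) (hκ : 0 < κ) {f g : V → List V → ℝ}
    (hfg : ∀ x h, Inv G (x :: h) → f x (x :: h) ≤ g x (x :: h)) (k : ℕ) :
    ∀ x h, Inv G (x :: h) → (wstep G κ o)^[k] f x (x :: h) ≤ (wstep G κ o)^[k] g x (x :: h) := by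
  induction k with
  | zero => exact hfg
  | succ k ih =>
    intro x h hI
    rw [Function.iterate_succ_apply', Function.iterate_succ_apply', wstep_apply, wstep_apply]
    exact div_le_div_of_nonneg_right
      (Finset.sum_le_sum fun y hy => ih y (x :: h) (inv_step hI hy)) (dt_pos hG hκ x).le

theorem main (h1 : S_NEU) : S_COVCONN := by
  intro V _ _ G _ κ o hG hκ
  classical
  have hdo := dt_pos (o := o) hG hκ o
  have hc : 0 < κ / dt G κ o o := by positivity
  obtain ⟨-, -, -, hsumm, -⟩ := h1 V G κ o hG hκ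
  have hp : ∀ F, pF G κ o F = ∑' k : ℕ, κ / dt G κ o o *
      ((wstep G κ o)^[k] (fun x h => if x = o ∧ hed h = F then 1 else 0) o [o]) := by
    intro F
    unfold pF
    refine tsum_congr fun k => ?_
    congr!
  have hcov : cov G κ o = ∑' k : ℕ, κ / dt G κ o o *
      ((wstep G κ o)^[k] (fun x h => if x = o ∧ (∀ v, v ∈ h) then 1 else 0) o [o]) := by
    unfold cov
    refine tsum_congr fun k => ?_
    congr!
  simp_rw [hp]
  rw [hcov, ← Summable.tsum_finsetSum (fun F _ => hsumm (fun h => hed h = F))]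
  refine Summable.tsum_le_tsum (fun k => ?_) (hsumm (fun h => ∀ v, v ∈ h))
    (summable_sum fun F _ => hsumm (fun h => hed h = F))
  rw [← Finset.mul_sum]
  refine mul_le_mul_of_nonneg_left ?_ hc.le
  set S := G.edgeFinset.powerset.filter (fun F => Conn F) with hS
  have h3 := congrFun (congrFun (wstep_iter_sum (G := G) (κ := κ) (o := o) S
    (fun F x h => if x = o ∧ hed h = F then 1 else 0) k) o) [o]
  rw [← h3]
  refine wstep_le_inv hG hκ (fun x h hI => ?_) k o [] ?_
  · by_cases hx : x = o ∧ ∀ v, v ∈ x :: h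
    · rw [if_pos hx]
      have hmem : hed (x :: h) ∈ S := by
        rw [hS, Finset.mem_filter, Finset.mem_powerset]
        exact ⟨hI.1, fun σ hσ a b => hI.2 σ hσ a (hx.2 a) b (hx.2 b)⟩
      have h4 : (if x = o ∧ hed (x :: h) = hed (x :: h) then (1 : ℝ) else 0) = 1 := by
        rw [if_pos ⟨hx.1, rfl⟩]
      refine le_trans (le_of_eq h4.symm) ?_
      exact Finset.single_le_sum
        (f := fun F => if x = o ∧ hed (x :: h) = F then (1 : ℝ) else 0)
        (fun F _ => by split_ifs <;> norm_num) hmem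
    · rw [if_neg hx]
      exact Finset.sum_nonneg fun F _ => by split_ifs <;> norm_num
  · refine ⟨Finset.empty_subset _, fun σ _ a ha b hb => ?_⟩
    rw [List.mem_singleton.mp ha, List.mem_singleton.mp hb]

/-! ### lower bound -/

omit [DecidableEq V] in
lemma deg_pos (hG : G.Connected) (hcard : 2 ≤ Fintype.card V) (x : V) : 0 < G.degree x := by
  have : Nontrivial V := Fintype.one_lt_card_iff_nontrivial.mp hcard
  exact hG.preconnected.degree_pos_of_nontrivial x

lemma srw_nonneg {f : V → Finset V → ℝ} (hf : ∀ x A, 0 ≤ f x A) (k : ℕ) :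
    ∀ x A, 0 ≤ (srwStep G)^[k] f x A := by
  induction k with
  | zero => exact hf
  | succ k ih =>
    intro x A
    rw [Function.iterate_succ_apply']
    exact div_nonneg (Finset.sum_nonneg fun y _ => ih y _) (Nat.cast_nonneg _)

lemma nc_nonneg (A : Finset V) : 0 ≤ nc A := by
  unfold nc; split_ifs <;> norm_num

lemma wstep_le_srw (hG : G.Connected) (hcard : 2 ≤ Fintype.card V) (hκ : 0 < κ)
    [DecidablePred fun h : List V => ¬ ∀ v, v ∈ h] (k : ℕ) :
    ∀ x h, (wstep G κ o)^[k] (fun x h => if x = o ∧ ¬ (∀ v, v ∈ h) then 1 else 0) x h ≤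
      (srwStep G)^[k] (fun x A => if x = o then nc A else 0) x h.toFinset := by
  induction k with
  | zero =>
    intro x h
    simp only [Function.iterate_zero, id_eq]
    by_cases hx : x = o
    · rw [if_pos hx]
      by_cases hh : ∀ v, v ∈ h
      · rw [if_neg (fun hc => hc.2 hh)]; exact nc_nonneg _
      · rw [if_pos ⟨hx, hh⟩]
        unfold nc
        rw [if_neg]
        intro h0
        apply hh
        intro v
        rw [← List.mem_toFinset, h0]; exact Finset.mem_univ v
    · rw [if_neg hx, if_neg (fun hc => hx hc.1)]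
  | succ k ih =>
    intro x h
    rw [Function.iterate_succ_apply', Function.iterate_succ_apply', wstep_apply]
    have hd := deg_pos hG hcard x
    have hd' : (0 : ℝ) < G.degree x := by exact_mod_cast hd
    have hle : (G.degree x : ℝ) ≤ dt G κ o x := by
      unfold dt; split_ifs <;> linarith
    have h1 : ∀ y, (srwStep G)^[k] (fun x A => if x = o then nc A else 0) y
        (insert y h.toFinset) = (srwStep G)^[k] (fun x A => if x = o then nc A else 0) y
        (y :: h).toFinset := by
      intro y; rw [List.toFinset_cons]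
    change _ ≤ (∑ y ∈ G.neighborFinset x, (srwStep G)^[k] (fun x A => if x = o then nc A else 0) y
      (insert y h.toFinset)) / (G.degree x : ℝ)
    simp_rw [h1]
    refine div_le_div₀ (Finset.sum_nonneg fun y _ => srw_nonneg (fun x A => ?_) k y _)
      (Finset.sum_le_sum fun y _ => ih y _) hd' hle
    split_ifs
    · exact nc_nonneg A
    · exact le_rfl

theorem covge (h1 : S_NEU) (h2 : S_CYC) : S_COVGE := by
  intro V _ _ G _ κ o a hG hcard hκ ha
  classical
  have hdo := dt_pos (o := o) hG hκ o
  have hc : 0 < κ / dt G κ o o := by positivity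
  obtain ⟨-, -, -, hsumm, htot⟩ := h1 V G κ o hG hκ
  have hcov : cov G κ o = ∑' k : ℕ, κ / dt G κ o o *
      ((wstep G κ o)^[k] (fun x h => if x = o ∧ (∀ v, v ∈ h) then 1 else 0) o [o]) := by
    unfold cov
    refine tsum_congr fun k => ?_
    congr!
  have hs1 := hsumm (fun h => ∀ v, v ∈ h)
  have hs2 := hsumm (fun h => ¬ ∀ v, v ∈ h)
  have hdeg : 0 < G.degree o := deg_pos hG hcard o
  have hdeg' : (0 : ℝ) < G.degree o := by exact_mod_cast hdeg
  have hm : 0 < G.edgeFinset.card := by
    obtain ⟨y, hy⟩ := Finset.card_pos.mp (by rw [G.card_neighborFinset_eq_degree]; exact hdeg)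
    refine Finset.card_pos.mpr ⟨s(o, y), ?_⟩
    rw [SimpleGraph.mem_edgeFinset, SimpleGraph.mem_edgeSet]
    rwa [SimpleGraph.mem_neighborFinset] at hy
  have hm' : (0 : ℝ) < G.edgeFinset.card := by exact_mod_cast hm
  set R : ℝ := ∑' k : ℕ, κ / dt G κ o o *
      ((wstep G κ o)^[k] (fun x h => if x = o ∧ ¬ (∀ v, v ∈ h) then 1 else 0) o [o]) with hR
  have hsplit : (1 : ℝ) = cov G κ o + R := by
    rw [hcov, hR, ← Summable.tsum_add hs1 hs2]
    refine htot.symm.trans ?_
    refine tsum_congr fun k => ?_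
    rw [← mul_add]
    congr 1
    have h3 := congrFun (congrFun (wstep_iter_sum (G := G) (κ := κ) (o := o)
      (Finset.univ : Finset Bool)
      (fun b x h => if b = true then (if x = o ∧ (∀ v, v ∈ h) then 1 else 0) else
        (if x = o ∧ ¬ (∀ v, v ∈ h) then 1 else 0)) k) o) [o]
    simp only [Fintype.univ_bool, Finset.mem_singleton, Bool.true_eq_false, not_false_eq_true,
      Finset.sum_insert, if_true, Finset.sum_singleton, Bool.false_eq_true, if_false] at h3
    rw [← h3]
    refine congrArg (fun f => (wstep G κ o)^[k] f o [o]) ?_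
    funext x h
    by_cases hx : x = o
    · by_cases hh : ∀ v, v ∈ h
      · simp [hx, hh]
      · simp [hx, hh]
    · simp [hx]
  have hRle : ENNReal.ofReal R ≤ ENNReal.ofReal (κ / G.edgeFinset.card) * Tsrw G := by
    have hnn : ∀ k : ℕ, 0 ≤ κ / dt G κ o o *
      ((wstep G κ o)^[k] (fun x h => if x = o ∧ ¬ (∀ v, v ∈ h) then 1 else 0) o [o]) := by
      intro k
      refine mul_nonneg hc.le (wstep_nonneg hG hκ (fun x h => ?_) k o [o])
      split_ifs <;> norm_num
    rw [hR, ENNReal.ofReal_tsum_of_nonneg hnn hs2]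
    have hterm : ∀ k : ℕ, ENNReal.ofReal (κ / dt G κ o o *
        ((wstep G κ o)^[k] (fun x h => if x = o ∧ ¬ (∀ v, v ∈ h) then 1 else 0) o [o])) ≤
        ENNReal.ofReal (κ / G.degree o) * ENNReal.ofReal
          ((srwStep G)^[k] (fun x A => if x = o then nc A else 0) o {o}) := by
      intro k
      rw [← ENNReal.ofReal_mul (by positivity)]
      refine ENNReal.ofReal_le_ofReal ?_
      have h4 := wstep_le_srw (o := o) hG hcard hκ k o [o]
      have h5 : ([o] : List V).toFinset = {o} := by simp
      rw [h5] at h4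
      have h6 : κ / dt G κ o o ≤ κ / G.degree o := by
        refine div_le_div_of_nonneg_left hκ.le hdeg' ?_
        unfold dt; rw [if_pos rfl]; linarith
      have h7 : 0 ≤ (srwStep G)^[k] (fun x A => if x = o then nc A else 0) o {o} := by
        refine srw_nonneg (fun x A => ?_) k o {o}
        split_ifs
        · exact nc_nonneg A
        · exact le_rfl
      calc κ / dt G κ o o *
          ((wstep G κ o)^[k] (fun x h => if x = o ∧ ¬ (∀ v, v ∈ h) then 1 else 0) o [o])
          ≤ κ / dt G κ o o * (srwStep G)^[k] (fun x A => if x = o then nc A else 0) o {o} :=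
            mul_le_mul_of_nonneg_left h4 hc.le
        _ ≤ _ := mul_le_mul_of_nonneg_right h6 h7
    refine (ENNReal.tsum_le_tsum hterm).trans ?_
    rw [ENNReal.tsum_mul_left]
    refine (mul_le_mul_right (h2 V G o a hG hcard ha) _).trans ?_
    rw [← mul_assoc, ← ENNReal.ofReal_mul (by positivity)]
    have h8 : κ / (G.degree o : ℝ) * ((G.degree o : ℝ) / (G.edgeFinset.card : ℝ)) =
        κ / (G.edgeFinset.card : ℝ) := by
      rw [div_mul_div_comm, mul_comm κ, mul_div_mul_left _ _ hdeg'.ne']
    rw [h8]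
  calc (1 : ℝ≥0∞) = ENNReal.ofReal (cov G κ o + R) := by rw [← hsplit, ENNReal.ofReal_one]
    _ ≤ ENNReal.ofReal (cov G κ o) + ENNReal.ofReal R := ENNReal.ofReal_add_le
    _ ≤ _ := by gcongr

end Pool.Agent.W338.CTCOVCONN
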