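import Pool.Agent.W823.CT.Stm

/-! # Path sums of the killed walk and the matrix inverse -/

set_option autoImplicit false

open scoped BigOperators
open Pool.Agent.W823.CT

namespace Pool.Agent.W338.CTNEU

variable {V : Type} [Fintype V] [DecidableEq V] {G : SimpleGraph V} [DecidableRel G.Adj]
  {κ : ℝ} {o : V}

lemma dt_pos (hG : G.Connected) (hκ : 0 < κ) (x : V) : 0 < dt G κ o x := by
  unfold dt
  by_cases h : x = o
  · rw [if_pos h]; positivity
  · rw [if_neg h, add_zero]
    have : Nontrivial V := ⟨x, o, h⟩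
    exact_mod_cast hG.preconnected.degree_pos_of_nontrivial x

omit [Fintype V] [DecidableEq V] [DecidableRel G.Adj] in
lemma const_of_adj (hG : G.Connected) (f : V → ℝ) (h : ∀ x y, G.Adj x y → f x = f y)
    (x y : V) : f x = f y := by
  obtain ⟨w⟩ := hG.preconnected x y
  induction w with
  | nil => rfl
  | cons hadj _ ih => exact (h _ _ hadj).trans ih

lemma MF_mulVec (F : Finset (Sym2 V)) (φ : V → ℝ) (x : V) :
    (MF G κ o F).mulVec φ x = dt G κ o x * φ x - ∑ y, (if s(x, y) ∈ F then φ y else 0) := by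
  unfold MF
  simp only [Matrix.mulVec, dotProduct, Matrix.of_apply, sub_mul, ite_mul, zero_mul, one_mul,
    Finset.sum_sub_distrib]
  congr 1
  rw [Finset.sum_ite_eq]
  simp

omit [DecidableEq V] in
lemma sum_deg (φ : V → ℝ) : ∑ x, (G.degree x : ℝ) * φ x = ∑ x, ∑ y, if G.Adj x y then φ x else 0 := by
  refine Finset.sum_congr rfl fun x _ => ?_
  rw [← Finset.sum_filter, Finset.sum_const, nsmul_eq_mul]
  congr 2
  rw [← G.card_neighborFinset_eq_degree]
  congr 1
  ext y; simp

lemma quad_lb {F : Finset (Sym2 V)} (hF : F ⊆ G.edgeFinset) (φ : V → ℝ) :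
    κ * φ o ^ 2 + En G (fun x => |φ x|) (fun x => |φ x|) ≤
      φ ⬝ᵥ (MF G κ o F).mulVec φ := by
  have h1 : φ ⬝ᵥ (MF G κ o F).mulVec φ =
      ∑ x, dt G κ o x * φ x ^ 2 - ∑ x, ∑ y, (if s(x, y) ∈ F then φ x * φ y else 0) := by
    simp only [dotProduct, MF_mulVec, mul_sub, Finset.sum_sub_distrib, Finset.mul_sum, mul_ite,
      mul_zero]
    congr 1
    refine Finset.sum_congr rfl fun x _ => by ring
  have h2 : ∑ x, dt G κ o x * φ x ^ 2 = ∑ x, (G.degree x : ℝ) * φ x ^ 2 + κ * φ o ^ 2 := by
    simp only [dt, add_mul, Finset.sum_add_distrib, ite_mul, zero_mul]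
    congr 1
    rw [Finset.sum_ite_eq']
    simp
  have h3 := sum_deg (G := G) (fun x => φ x ^ 2)
  have h4 : En G (fun x => |φ x|) (fun x => |φ x|) =
      ∑ x, ∑ y, (if G.Adj x y then φ x ^ 2 else 0) -
        ∑ x, ∑ y, (if G.Adj x y then |φ x| * |φ y| else 0) := by
    have e1 : ∑ x, ∑ y, (if G.Adj x y then φ x ^ 2 else 0) =
        ∑ x, ∑ y, (if G.Adj x y then φ y ^ 2 else 0) := by
      rw [Finset.sum_comm]
      refine Finset.sum_congr rfl fun x _ => Finset.sum_congr rfl fun y _ => ?_
      simp only [G.adj_comm y x]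
    have e2 : ∑ x, ∑ y, (if G.Adj x y then (|φ x| - |φ y|) * (|φ x| - |φ y|) else 0) =
        ∑ x, ∑ y, (if G.Adj x y then φ x ^ 2 else 0) + ∑ x, ∑ y, (if G.Adj x y then φ y ^ 2 else 0)
          - 2 * ∑ x, ∑ y, (if G.Adj x y then |φ x| * |φ y| else 0) := by
      simp only [Finset.mul_sum, ← Finset.sum_add_distrib, ← Finset.sum_sub_distrib]
      refine Finset.sum_congr rfl fun x _ => Finset.sum_congr rfl fun y _ => ?_
      split_ifs
      · rw [← sq_abs (φ x), ← sq_abs (φ y)]; ring
      · ring
    unfold En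
    rw [e2, ← e1]; ring
  have h5 : ∑ x, ∑ y, (if s(x, y) ∈ F then φ x * φ y else 0) ≤
      ∑ x, ∑ y, (if G.Adj x y then |φ x| * |φ y| else 0) := by
    refine Finset.sum_le_sum fun x _ => Finset.sum_le_sum fun y _ => ?_
    by_cases h : s(x, y) ∈ F
    · have h' : G.Adj x y := by
        have := hF h
        rwa [SimpleGraph.mem_edgeFinset, SimpleGraph.mem_edgeSet] at this
      rw [if_pos h, if_pos h', ← abs_mul]; exact le_abs_self _
    · rw [if_neg h]
      split_ifs
      · positivity
      · exact le_rfl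
  rw [h1, h2, h3, h4]
  linarith

omit [DecidableEq V] in
lemma En_nonneg (f : V → ℝ) : 0 ≤ En G f f := by
  unfold En
  refine div_nonneg (Finset.sum_nonneg fun x _ => Finset.sum_nonneg fun y _ => ?_) (by norm_num)
  split_ifs
  · exact mul_self_nonneg _
  · exact le_rfl

omit [DecidableEq V] in
lemma En_eq_zero {f : V → ℝ} (h : En G f f = 0) (x y : V) (hxy : G.Adj x y) : f x = f y := by
  unfold En at h
  have h1 : ∑ x, ∑ y, (if G.Adj x y then (f x - f y) * (f x - f y) else 0) = 0 := by linarith
  have hnn : ∀ x y, 0 ≤ (if G.Adj x y then (f x - f y) * (f x - f y) else 0) := by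
    intro x y
    split_ifs
    · exact mul_self_nonneg _
    · exact le_rfl
  have h2 := (Finset.sum_eq_zero_iff_of_nonneg
    (fun x _ => Finset.sum_nonneg fun y _ => hnn x y)).mp h1 x (Finset.mem_univ x)
  have h3 := (Finset.sum_eq_zero_iff_of_nonneg (fun y _ => hnn x y)).mp h2 y (Finset.mem_univ y)
  rw [if_pos hxy] at h3
  have := mul_self_eq_zero.mp h3
  linarith

lemma posDef (hG : G.Connected) (hκ : 0 < κ) {F : Finset (Sym2 V)} (hF : F ⊆ G.edgeFinset) :
    (MF G κ o F).PosDef := by
  refine Matrix.PosDef.of_dotProduct_mulVec_pos ?_ ?_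
  · ext x y
    simp only [MF, Matrix.conjTranspose_apply, Matrix.of_apply, star_trivial]
    rw [Sym2.eq_swap]
    by_cases h : x = y
    · subst h; rfl
    · rw [if_neg h, if_neg (Ne.symm h)]
  · intro φ hφ
    rw [star_trivial]
    have h1 := quad_lb (G := G) (κ := κ) (o := o) hF φ
    have h2 := En_nonneg (G := G) (fun x => |φ x|)
    have h3 : 0 ≤ κ * φ o ^ 2 := by positivity
    refine lt_of_lt_of_le ?_ h1
    refine lt_of_le_of_ne (by linarith) fun h0 => hφ ?_
    have h4 : En G (fun x => |φ x|) (fun x => |φ x|) = 0 := by linarith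
    have h5 : κ * φ o ^ 2 = 0 := by linarith
    have h6 : φ o = 0 := by
      rcases mul_eq_zero.mp h5 with h | h
      · exact absurd h hκ.ne'
      · exact pow_eq_zero_iff (two_ne_zero) |>.mp h
    funext x
    have h7 := const_of_adj hG (fun x => |φ x|) (En_eq_zero h4) x o
    simp only [h6, abs_zero, abs_eq_zero] at h7
    exact h7

/-- one step of the walk restricted to `F` -/
noncomputable def Q (G : SimpleGraph V) [DecidableRel G.Adj] (κ : ℝ) (o : V) (F : Finset (Sym2 V))
    (f : V → ℝ) (x : V) : ℝ :=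
  (∑ y ∈ G.neighborFinset x, if s(y, x) ∈ F then f y else 0) / dt G κ o x

/-- indicator of `o` -/
def e (o : V) (x : V) : ℝ := if x = o then 1 else 0

lemma Q_eq {F : Finset (Sym2 V)} (hF : F ⊆ G.edgeFinset) (f : V → ℝ) (x : V) :
    Q G κ o F f x = (∑ y, if s(x, y) ∈ F then f y else 0) / dt G κ o x := by
  unfold Q
  congr 1
  have h1 : ∀ y, (if s(x, y) ∈ F then f y else 0) = if s(y, x) ∈ F then f y else 0 := by
    intro y; rw [Sym2.eq_swap]
  simp_rw [h1]
  refine Finset.sum_subset (Finset.subset_univ _) fun y _ hy => ?_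
  rw [if_neg]
  intro h
  apply hy
  have := hF h
  rw [SimpleGraph.mem_edgeFinset, SimpleGraph.mem_edgeSet] at this
  rw [SimpleGraph.mem_neighborFinset]
  exact this.symm

lemma MF_Q (hG : G.Connected) (hκ : 0 < κ) {F : Finset (Sym2 V)} (hF : F ⊆ G.edgeFinset)
    (f : V → ℝ) (x : V) :
    (MF G κ o F).mulVec f x = dt G κ o x * (f x - Q G κ o F f x) := by
  rw [MF_mulVec, Q_eq hF]
  have := (dt_pos (o := o) hG hκ x).ne'
  field_simp

lemma Q_mono (hG : G.Connected) (hκ : 0 < κ) (F : Finset (Sym2 V)) {f g : V → ℝ}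
    (h : ∀ x, f x ≤ g x) (x : V) : Q G κ o F f x ≤ Q G κ o F g x := by
  unfold Q
  refine div_le_div_of_nonneg_right (Finset.sum_le_sum fun y _ => ?_) (dt_pos hG hκ x).le
  split_ifs
  · exact h y
  · exact le_rfl

lemma Q_zero (F : Finset (Sym2 V)) (x : V) : Q G κ o F (fun _ => 0) x = 0 := by
  unfold Q; simp

lemma Q_add (F : Finset (Sym2 V)) (f g : V → ℝ) (x : V) :
    Q G κ o F (fun y => f y + g y) x = Q G κ o F f x + Q G κ o F g x := by
  unfold Q
  rw [← add_div, ← Finset.sum_add_distrib]
  congr 1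
  refine Finset.sum_congr rfl fun y _ => ?_
  split_ifs <;> simp

lemma Q_sum (F : Finset (Sym2 V)) (f : ℕ → V → ℝ) (K : ℕ) (x : V) :
    Q G κ o F (fun y => ∑ k ∈ Finset.range K, f k y) x = ∑ k ∈ Finset.range K, Q G κ o F (f k) x := by
  induction K with
  | zero => simp [Q_zero]
  | succ K ih =>
    simp_rw [Finset.sum_range_succ]
    rw [Q_add, ih]

/-- the M-matrix property -/
lemma green_nonneg (hG : G.Connected) (hκ : 0 < κ) {F : Finset (Sym2 V)} (hF : F ⊆ G.edgeFinset)
    (φ : V → ℝ) (h : ∀ x, 0 ≤ (MF G κ o F).mulVec φ x) (x : V) : 0 ≤ φ x := by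
  have hM := posDef (o := o) hG hκ hF
  by_contra hcon
  push Not at hcon
  let ψ : V → ℝ := fun x => min (φ x) 0
  have hψ : ψ ≠ 0 := by
    intro h0
    have := congrFun h0 x
    simp only [ψ, Pi.zero_apply] at this
    rw [min_eq_left hcon.le] at this
    linarith
  have h1 := hM.dotProduct_mulVec_pos hψ
  rw [star_trivial] at h1
  have h2 : ψ ⬝ᵥ (MF G κ o F).mulVec φ ≤ 0 := by
    refine Finset.sum_nonpos fun y _ => ?_
    exact mul_nonpos_of_nonpos_of_nonneg (min_le_right _ _) (h y)
  have h3 : ψ ⬝ᵥ (MF G κ o F).mulVec ψ ≤ ψ ⬝ᵥ (MF G κ o F).mulVec φ := by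
    refine Finset.sum_le_sum fun y _ => ?_
    rw [MF_mulVec, MF_mulVec]
    have e1 : ψ y * (dt G κ o y * ψ y) = ψ y * (dt G κ o y * φ y) := by
      simp only [ψ]
      rcases le_total (φ y) 0 with h | h
      · rw [min_eq_left h]
      · rw [min_eq_right h]; ring
    have e2 : ψ y * ∑ z, (if s(y, z) ∈ F then φ z else 0) ≤
        ψ y * ∑ z, (if s(y, z) ∈ F then ψ z else 0) := by
      refine mul_le_mul_of_nonpos_left ?_ (min_le_right _ _)
      refine Finset.sum_le_sum fun z _ => ?_
      split_ifs
      · exact min_le_left _ _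
      · exact le_rfl
    rw [mul_sub, mul_sub]
    linarith
  linarith

/-- the Green function -/
lemma green (hG : G.Connected) (hκ : 0 < κ) {F : Finset (Sym2 V)} (hF : F ⊆ G.edgeFinset) :
    (∀ k x, 0 ≤ (Q G κ o F)^[k] (e o) x) ∧
    (∀ x, Summable fun k => (Q G κ o F)^[k] (e o) x) ∧
    (∀ x, (MF G κ o F).mulVec (fun x => ∑' k, (Q G κ o F)^[k] (e o) x) x =
      if x = o then dt G κ o o else 0) ∧
    ∀ T : V → ℝ, (∀ x, (MF G κ o F).mulVec T x = if x = o then dt G κ o o else 0) →
      ∀ x, ∑' k, (Q G κ o F)^[k] (e o) x = T x := by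
  have hM := posDef (o := o) hG hκ hF
  have hu := hM.isUnit
  have hnn : ∀ k x, 0 ≤ (Q G κ o F)^[k] (e o) x := by
    intro k
    induction k with
    | zero =>
      intro x
      simp only [Function.iterate_zero, id_eq, e]
      split_ifs <;> norm_num
    | succ k ih =>
      intro x
      rw [Function.iterate_succ_apply']
      have := Q_mono (o := o) hG hκ F ih x
      rwa [Q_zero] at this
  let b : V → ℝ := fun x => if x = o then dt G κ o o else 0
  let T : V → ℝ := (MF G κ o F)⁻¹.mulVec b
  have hdet : IsUnit (MF G κ o F).det := (Matrix.isUnit_iff_isUnit_det _).mp hu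
  have hT : (MF G κ o F).mulVec T = b := by
    simp only [T]
    rw [Matrix.mulVec_mulVec, Matrix.mul_nonsing_inv _ hdet, Matrix.one_mulVec]
  have hTeq : ∀ x, T x = e o x + Q G κ o F T x := by
    intro x
    have h1 := congrFun hT x
    rw [MF_Q hG hκ hF] at h1
    simp only [b] at h1
    have hd := dt_pos (o := o) hG hκ x
    by_cases hx : x = o
    · subst hx
      rw [if_pos rfl] at h1
      have h2 : T x - Q G κ x F T x = 1 := by
        have := mul_left_cancel₀ hd.ne' (h1.trans (mul_one _).symm)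
        exact this
      simp only [e, if_true]
      linarith
    · rw [if_neg hx] at h1
      rcases mul_eq_zero.mp h1 with h | h
      · exact absurd h hd.ne'
      · simp only [e, if_neg hx]; linarith
  have hTnn : ∀ x, 0 ≤ T x := by
    refine green_nonneg (o := o) hG hκ hF T fun x => ?_
    rw [hT]
    simp only [b]
    split_ifs
    · exact (dt_pos hG hκ o).le
    · exact le_rfl
  have hpart : ∀ K x, ∑ k ∈ Finset.range K, (Q G κ o F)^[k] (e o) x ≤ T x := by
    intro K
    induction K with
    | zero => intro x; simpa using hTnn x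
    | succ K ih =>
      intro x
      rw [Finset.sum_range_succ', hTeq x, add_comm]
      refine add_le_add (le_of_eq ?_) ?_
      · simp
      · simp_rw [Function.iterate_succ_apply']
        rw [← Q_sum]
        exact Q_mono hG hκ F ih x
  have hsum : ∀ x, Summable fun k => (Q G κ o F)^[k] (e o) x := fun x =>
    summable_of_sum_range_le (fun k => hnn k x) (fun K => hpart K x)
  have hS : ∀ x, ∑' k, (Q G κ o F)^[k] (e o) x =
      e o x + Q G κ o F (fun x => ∑' k, (Q G κ o F)^[k] (e o) x) x := by
    intro x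
    rw [(hsum x).tsum_eq_zero_add]
    congr 1
    simp_rw [Function.iterate_succ_apply']
    have e1 : ∀ k, Q G κ o F ((Q G κ o F)^[k] (e o)) x =
        ∑ y ∈ G.neighborFinset x, (if s(y, x) ∈ F then (Q G κ o F)^[k] (e o) y else 0) /
          dt G κ o x := by
      intro k
      rw [← Finset.sum_div]; rfl
    simp_rw [e1]
    have hs : ∀ y ∈ G.neighborFinset x, Summable fun k =>
        (if s(y, x) ∈ F then (Q G κ o F)^[k] (e o) y else 0) / dt G κ o x := by
      intro y _
      by_cases hy : s(y, x) ∈ F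
      · simp only [if_pos hy]; exact (hsum y).div_const _
      · simp only [if_neg hy, zero_div]; exact summable_zero
    rw [Summable.tsum_finsetSum hs]
    unfold Q
    rw [Finset.sum_div]
    refine Finset.sum_congr rfl fun y _ => ?_
    rw [tsum_div_const]
    congr 1
    by_cases hy : s(y, x) ∈ F
    · simp only [if_pos hy]
    · simp only [if_neg hy, tsum_zero]
  have hMS : ∀ x, (MF G κ o F).mulVec (fun x => ∑' k, (Q G κ o F)^[k] (e o) x) x =
      if x = o then dt G κ o o else 0 := by
    intro x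
    rw [MF_Q hG hκ hF]
    have h1 := hS x
    have h2 : (∑' k, (Q G κ o F)^[k] (e o) x) -
        Q G κ o F (fun x => ∑' k, (Q G κ o F)^[k] (e o) x) x = e o x := by linarith
    rw [h2]
    unfold e
    by_cases hx : x = o
    · rw [if_pos hx, if_pos hx, hx, mul_one]
    · rw [if_neg hx, if_neg hx, mul_zero]
  refine ⟨hnn, hsum, hMS, fun T' hT' x => ?_⟩
  have h1 : (MF G κ o F).mulVec (fun x => ∑' k, (Q G κ o F)^[k] (e o) x) =
      (MF G κ o F).mulVec T' := by
    funext y; rw [hMS, hT']
  have h2 := Matrix.mulVec_injective_of_isUnit hu h1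
  exact congrFun h2 x

/-! ### the walk with history -/

lemma wstep_sum {ι : Type} (s : Finset ι) (f : ι → V → List V → ℝ) :
    wstep G κ o (fun x h => ∑ i ∈ s, f i x h) = fun x h => ∑ i ∈ s, wstep G κ o (f i) x h := by
  funext x h
  unfold wstep
  rw [Finset.sum_comm, Finset.sum_div]

lemma wstep_iter_sum {ι : Type} (s : Finset ι) (f : ι → V → List V → ℝ) (k : ℕ) :
    (wstep G κ o)^[k] (fun x h => ∑ i ∈ s, f i x h) =
      fun x h => ∑ i ∈ s, (wstep G κ o)^[k] (f i) x h := by
  induction k with
  | zero => rfl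
  | succ k ih =>
    simp_rw [Function.iterate_succ_apply']
    rw [ih, wstep_sum]

lemma wstep_nonneg (hG : G.Connected) (hκ : 0 < κ) {f : V → List V → ℝ}
    (hf : ∀ x h, 0 ≤ f x h) (k : ℕ) : ∀ x h, 0 ≤ (wstep G κ o)^[k] f x h := by
  induction k with
  | zero => exact hf
  | succ k ih =>
    intro x h
    rw [Function.iterate_succ_apply']
    exact div_nonneg (Finset.sum_nonneg fun y _ => ih y _) (dt_pos hG hκ x).le

/-- comparison with the walk without history -/
lemma wstep_le (hG : G.Connected) (hκ : 0 < κ) {f : V → List V → ℝ} {g : V → ℝ}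
    (hf : ∀ x h, f x (x :: h) ≤ g x) (k : ℕ) :
    ∀ x h, (wstep G κ o)^[k] f x (x :: h) ≤ (Q G κ o G.edgeFinset)^[k] g x := by
  induction k with
  | zero => exact hf
  | succ k ih =>
    intro x h
    rw [Function.iterate_succ_apply', Function.iterate_succ_apply']
    unfold wstep Q
    refine div_le_div_of_nonneg_right (Finset.sum_le_sum fun y hy => ?_) (dt_pos hG hκ x).le
    rw [if_pos]
    · exact ih y _
    · rw [SimpleGraph.mem_edgeFinset, SimpleGraph.mem_edgeSet]
      rw [SimpleGraph.mem_neighborFinset] at hy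
      exact hy.symm

lemma wstep_const (k : ℕ) (g : V → ℝ) :
    ∀ x h, (wstep G κ o)^[k] (fun x _ => g x) x h = (Q G κ o G.edgeFinset)^[k] g x := by
  induction k with
  | zero => intro x h; rfl
  | succ k ih =>
    intro x h
    rw [Function.iterate_succ_apply', Function.iterate_succ_apply']
    unfold wstep Q
    congr 1
    refine Finset.sum_congr rfl fun y hy => ?_
    rw [if_pos]
    · exact ih y _
    · rw [SimpleGraph.mem_edgeFinset, SimpleGraph.mem_edgeSet]
      rw [SimpleGraph.mem_neighborFinset] at hy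
      exact hy.symm

lemma wstep_apply (f : V → List V → ℝ) (x : V) (h : List V) :
    wstep G κ o f x h = (∑ y ∈ G.neighborFinset x, f y (y :: h)) / dt G κ o x := rfl

lemma Q_apply (F : Finset (Sym2 V)) (f : V → ℝ) (x : V) :
    Q G κ o F f x =
      (∑ y ∈ G.neighborFinset x, if s(y, x) ∈ F then f y else 0) / dt G κ o x := rfl

lemma hist (F : Finset (Sym2 V)) (k : ℕ) :
    ∀ x h, (wstep G κ o)^[k] (fun x h => if x = o ∧ hed h ⊆ F then 1 else 0) x (x :: h) =
      if hed (x :: h) ⊆ F then (Q G κ o F)^[k] (e o) x else 0 := by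
  induction k with
  | zero =>
    intro x h
    simp only [Function.iterate_zero, id_eq, e]
    by_cases h1 : x = o <;> by_cases h2 : hed (x :: h) ⊆ F <;> simp [h1, h2]
  | succ k ih =>
    intro x h
    rw [Function.iterate_succ_apply', Function.iterate_succ_apply', wstep_apply, Q_apply]
    simp_rw [ih]
    have h1 : ∀ y, hed (y :: x :: h) = insert s(y, x) (hed (x :: h)) := fun y => rfl
    by_cases h2 : hed (x :: h) ⊆ F
    · rw [if_pos h2]
      congr 1
      refine Finset.sum_congr rfl fun y _ => ?_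
      rw [h1]
      simp only [Finset.insert_subset_iff, h2, and_true]
    · rw [if_neg h2]
      rw [div_eq_zero_iff]
      left
      refine Finset.sum_eq_zero fun y _ => ?_
      rw [if_neg]
      rw [h1, Finset.insert_subset_iff]
      exact fun hc => h2 hc.2

theorem main : S_NEU := by
  intro V _ _ G _ κ o hG hκ
  have hdo := dt_pos (o := o) hG hκ o
  have hc : 0 < κ / dt G κ o o := by positivity
  have hsummE := (green (o := o) hG hκ (Finset.Subset.refl G.edgeFinset)).2.1
  have hsumm : ∀ Φ : List V → Prop, [DecidablePred Φ] →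
      Summable fun k : ℕ => κ / dt G κ o o *
        ((wstep G κ o)^[k] (fun x h => if x = o ∧ Φ h then 1 else 0) o [o]) := by
    intro Φ _
    refine Summable.of_nonneg_of_le (f := fun k => κ / dt G κ o o *
      (Q G κ o G.edgeFinset)^[k] (e o) o) (fun k => ?_) (fun k => ?_) ((hsummE o).mul_left _)
    · refine mul_nonneg hc.le (wstep_nonneg hG hκ (fun x h => ?_) k o [o])
      split_ifs <;> norm_num
    · refine mul_le_mul_of_nonneg_left (wstep_le hG hκ (fun x h => ?_) k o []) hc.le
      unfold e
      by_cases h1 : x = o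
      · rw [if_pos h1]
        split_ifs <;> norm_num
      · rw [if_neg h1, if_neg (fun hh => h1 hh.1)]
  refine ⟨fun F hF => posDef hG hκ hF, fun F => ?_, fun F hF => ?_, hsumm, ?_⟩
  · unfold pF
    refine tsum_nonneg fun k => mul_nonneg hc.le (wstep_nonneg hG hκ (fun x h => ?_) k o [o])
    split_ifs <;> norm_num
  · have h1 : ∀ F', pF G κ o F' = ∑' k : ℕ, κ / dt G κ o o *
        ((wstep G κ o)^[k] (fun x h => if x = o ∧ hed h = F' then 1 else 0) o [o]) := by
      intro F'
      unfold pF
      refine tsum_congr fun k => ?_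
      congr!
    simp_rw [h1]
    rw [← Summable.tsum_finsetSum (fun F' _ => hsumm (fun h => hed h = F'))]
    have h2 : ∀ k : ℕ, ∑ F' ∈ F.powerset, κ / dt G κ o o *
        ((wstep G κ o)^[k] (fun x h => if x = o ∧ hed h = F' then 1 else 0) o [o]) =
        κ / dt G κ o o * (Q G κ o F)^[k] (e o) o := by
      intro k
      rw [← Finset.mul_sum]
      congr 1
      have h3 := congrFun (congrFun (wstep_iter_sum (G := G) (κ := κ) (o := o) F.powerset
        (fun F' x h => if x = o ∧ hed h = F' then 1 else 0) k) o) [o]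
      rw [← h3]
      have h4 : (fun (x : V) (h : List V) => ∑ F' ∈ F.powerset,
          if x = o ∧ hed h = F' then (1 : ℝ) else 0) =
          fun x h => if x = o ∧ hed h ⊆ F then 1 else 0 := by
        funext x h
        by_cases hx : x = o
        · simp only [hx, true_and, Finset.sum_ite_eq, Finset.mem_powerset]
        · simp [hx]
      rw [h4, hist F k o []]
      rw [if_pos]
      exact Finset.empty_subset _
    rw [tsum_congr h2, tsum_mul_left]
    obtain ⟨-, -, hS, hun⟩ := green (o := o) hG hκ hF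
    have hM := posDef (o := o) hG hκ hF
    have hdet : IsUnit (MF G κ o F).det := (Matrix.isUnit_iff_isUnit_det _).mp hM.isUnit
    have h5 := hun ((MF G κ o F)⁻¹.mulVec (fun x => if x = o then dt G κ o o else 0)) (by
      intro x
      rw [Matrix.mulVec_mulVec, Matrix.mul_nonsing_inv _ hdet, Matrix.one_mulVec]) o
    rw [h5]
    simp only [Matrix.mulVec, dotProduct, mul_ite, mul_zero, Finset.sum_ite_eq', Finset.mem_univ,
      if_true]
    field_simp
  · have h1 : ∀ k : ℕ, κ / dt G κ o o *
        ((wstep G κ o)^[k] (fun x _ => if x = o then 1 else 0) o [o]) =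
        κ / dt G κ o o * (Q G κ o G.edgeFinset)^[k] (e o) o := by
      intro k
      congr 1
      exact wstep_const k (e o) o [o]
    rw [tsum_congr h1, tsum_mul_left]
    obtain ⟨-, -, -, hun⟩ := green (o := o) hG hκ (Finset.Subset.refl G.edgeFinset)
    have h5 := hun (fun _ => dt G κ o o / κ) (by
      intro x
      rw [MF_mulVec]
      have h6 : ∑ y, (if s(x, y) ∈ G.edgeFinset then dt G κ o o / κ else 0) =
          (G.degree x : ℝ) * (dt G κ o o / κ) := by
        rw [← Finset.sum_filter, Finset.sum_const, nsmul_eq_mul]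
        congr 2
        rw [← G.card_neighborFinset_eq_degree]
        congr 1
        ext y; simp
      rw [h6]
      unfold dt
      by_cases hx : x = o
      · subst hx
        simp only [if_true]
        field_simp
        ring
      · simp only [if_neg hx, add_zero, sub_self]) o
    rw [h5]
    field_simp

end Pool.Agent.W338.CTNEU
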