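import Pool.Agent.W744.NG.Stubs

/-! # Summable correlations imply absolutely continuous spectrum -/

set_option autoImplicit false

namespace Pool.Agent.W338.NGAC

open MeasureTheory Filter Topology
open scoped ComplexConjugate

variable {E : Type} [NormedAddCommGroup E] [InnerProductSpace ℂ E]

/-- correlations -/
noncomputable def cf (U : E →ₗᵢ[ℂ] E) (f g : E) (n : ℤ) : ℂ :=
  if 0 ≤ n then inner ℂ f ((⇑U)^[n.toNat] g) else inner ℂ ((⇑U)^[(-n).toNat] f) g

lemma inner_iter (U : E →ₗᵢ[ℂ] E) (f g : E) (k : ℕ) :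
    inner ℂ ((⇑U)^[k] f) ((⇑U)^[k] g) = inner ℂ f g := by
  induction k with
  | zero => rfl
  | succ k ih => rw [Function.iterate_succ_apply', Function.iterate_succ_apply', U.inner_map_map, ih]

lemma cf_sub (U : E →ₗᵢ[ℂ] E) (f g : E) (k l : ℕ) :
    inner ℂ ((⇑U)^[k] f) ((⇑U)^[l] g) = cf U f g ((l : ℤ) - k) := by
  unfold cf
  rcases le_total k l with h | h
  · obtain ⟨j, rfl⟩ := Nat.exists_eq_add_of_le h
    have h1 : ((k + j : ℕ) : ℤ) - k = j := by push_cast; ring
    rw [h1, if_pos (Int.natCast_nonneg j), Int.toNat_natCast, Function.iterate_add_apply, inner_iter]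
  · obtain ⟨j, rfl⟩ := Nat.exists_eq_add_of_le h
    have h1 : (l : ℤ) - ((l + j : ℕ) : ℤ) = -j := by push_cast; ring
    rw [h1]
    rcases Nat.eq_zero_or_pos j with rfl | hj
    · simp [inner_iter]
    · rw [if_neg (by omega), neg_neg, Int.toNat_natCast, Function.iterate_add_apply, inner_iter]

lemma it_comb (U : E →ₗᵢ[ℂ] E) (x y : ℂ) (f g : E) (n : ℕ) :
    (⇑U)^[n] (x • f + y • g) = x • (⇑U)^[n] f + y • (⇑U)^[n] g := by
  induction n with
  | zero => rfl
  | succ n ih =>
    rw [Function.iterate_succ_apply', Function.iterate_succ_apply', Function.iterate_succ_apply', ih,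
      map_add, map_smul, map_smul]

lemma cf_comb (U : E →ₗᵢ[ℂ] E) (x y : ℝ) (f g : E) (n : ℤ) :
    cf U ((x : ℂ) • f + (y : ℂ) • g) ((x : ℂ) • f + (y : ℂ) • g) n =
      x ^ 2 * cf U f f n + x * y * (cf U f g n + cf U g f n) + y ^ 2 * cf U g g n := by
  unfold cf
  split_ifs
  · rw [it_comb]
    simp only [inner_add_left, inner_add_right, inner_smul_left, inner_smul_right,
      Complex.conj_ofReal]
    ring
  · rw [it_comb]
    simp only [inner_add_left, inner_add_right, inner_smul_left, inner_smul_right,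
      Complex.conj_ofReal]
    ring

/-- the spectral density -/
noncomputable def R (U : E →ₗᵢ[ℂ] E) (f : E) (θ : UnitAddCircle) : ℂ :=
  ∑' n : ℤ, cf U f f n * fourier (-n) θ

lemma norm_term (U : E →ₗᵢ[ℂ] E) (f : E) (θ : UnitAddCircle) (n : ℤ) :
    ‖cf U f f n * fourier (-n) θ‖ = ‖cf U f f n‖ := by
  rw [norm_mul]
  have : ‖(fourier (-n) θ : ℂ)‖ = 1 := by
    rw [fourier_apply]; exact Circle.norm_coe _
  rw [this, mul_one]

lemma summ_term (U : E →ₗᵢ[ℂ] E) (f : E) (hs : Summable fun n => ‖cf U f f n‖)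
    (θ : UnitAddCircle) : Summable fun n : ℤ => cf U f f n * fourier (-n) θ := by
  refine Summable.of_norm ?_
  simp_rw [norm_term]; exact hs

lemma R_cont (U : E →ₗᵢ[ℂ] E) (f : E) (hs : Summable fun n => ‖cf U f f n‖) :
    Continuous (R U f) := by
  unfold R
  refine continuous_tsum (u := fun n => ‖cf U f f n‖) (fun n => ?_) hs (fun n θ => ?_)
  · exact continuous_const.mul (fourier (-n)).continuous
  · rw [norm_term]

/-! ### positivity (Fejér) -/

/-- weights -/
noncomputable def b (N : ℕ) (n : ℤ) : ℝ :=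
  ((Finset.range N).filter (fun k : ℕ => -(k : ℤ) ≤ n ∧ n < N - k)).card / N

lemma b_nonneg (N : ℕ) (n : ℤ) : 0 ≤ b N n := by unfold b; positivity

lemma b_le (N : ℕ) (n : ℤ) : b N n ≤ 1 := by
  unfold b
  rcases Nat.eq_zero_or_pos N with rfl | hN
  · simp
  · rw [div_le_one (by exact_mod_cast hN)]
    have := Finset.card_filter_le (Finset.range N) (fun k : ℕ => -(k : ℤ) ≤ n ∧ n < N - k)
    rw [Finset.card_range] at this
    exact_mod_cast this

lemma b_ge (N : ℕ) (hN : 0 < N) (n : ℤ) : 1 - 2 * (n.natAbs : ℝ) / N ≤ b N n := by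
  unfold b
  have hN' : (0 : ℝ) < N := by exact_mod_cast hN
  rw [le_div_iff₀ hN', sub_mul, div_mul_cancel₀ _ hN'.ne', one_mul]
  have h1 : Finset.Ico n.natAbs (N - n.natAbs) ⊆
      (Finset.range N).filter (fun k : ℕ => -(k : ℤ) ≤ n ∧ n < N - k) := by
    intro k hk
    rw [Finset.mem_Ico] at hk
    rw [Finset.mem_filter, Finset.mem_range]
    omega
  have h2 := Finset.card_le_card h1
  rw [Nat.card_Ico] at h2
  have h3 : (N : ℝ) ≤ ((Finset.range N).filter
      (fun k : ℕ => -(k : ℤ) ≤ n ∧ n < N - k)).card + 2 * n.natAbs := by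
    exact_mod_cast (by omega : N ≤ ((Finset.range N).filter
      (fun k : ℕ => -(k : ℤ) ≤ n ∧ n < N - k)).card + 2 * n.natAbs)
  linarith

lemma b_tendsto (n : ℤ) : Tendsto (fun N : ℕ => b N n) atTop (𝓝 1) := by
  have h1 : Tendsto (fun N : ℕ => 1 - 2 * (n.natAbs : ℝ) / N) atTop (𝓝 (1 - 0)) :=
    tendsto_const_nhds.sub (tendsto_const_div_atTop_nhds_zero_nat _)
  rw [sub_zero] at h1
  refine tendsto_of_tendsto_of_tendsto_of_le_of_le' h1 tendsto_const_nhds ?_ ?_
  · filter_upwards [eventually_gt_atTop 0] with N hN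
    exact b_ge N hN n
  · exact Eventually.of_forall fun N => b_le N n

lemma double_sum (F : ℤ → ℂ) (N : ℕ) :
    (∑ k ∈ Finset.range N, ∑ l ∈ Finset.range N, F ((l : ℤ) - k)) / N = ∑' n : ℤ, (b N n : ℂ) * F n := by
  have h0 : ∀ n ∉ Finset.Ico (-(N : ℤ)) N, (b N n : ℂ) * F n = 0 := by
    intro n hn
    have : (Finset.range N).filter (fun k : ℕ => -(k : ℤ) ≤ n ∧ n < N - k) = ∅ := by
      rw [Finset.filter_eq_empty_iff]
      intro k hk
      rw [Finset.mem_range] at hk
      rw [Finset.mem_Ico] at hn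
      omega
    unfold b
    rw [this]; simp
  rw [tsum_eq_sum h0]
  have h1 : ∀ k ∈ Finset.range N, ∑ l ∈ Finset.range N, F ((l : ℤ) - k) =
      ∑ n ∈ Finset.Ico (-(N : ℤ)) N, if (-(k : ℤ) ≤ n ∧ n < N - k) then F n else 0 := by
    intro k hk
    rw [Finset.mem_range] at hk
    rw [← Finset.sum_filter]
    refine Finset.sum_bij (fun l _ => (l : ℤ) - k) ?_ ?_ ?_ ?_
    · intro l hl
      rw [Finset.mem_range] at hl
      rw [Finset.mem_filter, Finset.mem_Ico]
      omega
    · intro l _ l' _ h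
      omega
    · intro n hn
      rw [Finset.mem_filter, Finset.mem_Ico] at hn
      refine ⟨(n + k).toNat, ?_, ?_⟩
      · rw [Finset.mem_range]; omega
      · omega
    · intro l _; rfl
  rw [Finset.sum_congr rfl h1, Finset.sum_comm, Finset.sum_div]
  refine Finset.sum_congr rfl fun n _ => ?_
  rw [← Finset.sum_filter, Finset.sum_const, nsmul_eq_mul]
  unfold b
  push_cast
  ring

lemma R_pos (U : E →ₗᵢ[ℂ] E) (f : E) (hs : Summable fun n => ‖cf U f f n‖)
    (θ : UnitAddCircle) : 0 ≤ (R U f θ).re ∧ (R U f θ).im = 0 := by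
  set F : ℤ → ℂ := fun n => cf U f f n * fourier (-n) θ with hF
  have hlim : Tendsto (fun N : ℕ => ∑' n : ℤ, (b N n : ℂ) * F n) atTop (𝓝 (R U f θ)) := by
    have h1 : R U f θ = ∑' n : ℤ, (1 : ℂ) * F n := by simp [R, hF]
    rw [h1]
    refine tendsto_tsum_of_dominated_convergence (bound := fun n => ‖cf U f f n‖) hs ?_ ?_
    · intro n
      have h2 : Tendsto (fun N : ℕ => ((b N n : ℝ) : ℂ)) atTop (𝓝 ((1 : ℝ) : ℂ)) :=
        (Complex.continuous_ofReal.tendsto _).comp (b_tendsto n)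
      rw [Complex.ofReal_one] at h2
      exact h2.mul_const _
    · refine Eventually.of_forall fun N n => ?_
      rw [norm_mul, hF, norm_term, Complex.norm_real, Real.norm_of_nonneg (b_nonneg N n)]
      exact mul_le_of_le_one_left (norm_nonneg _) (b_le N n)
  have hval : ∀ N : ℕ, ∑' n : ℤ, (b N n : ℂ) * F n =
      ((‖∑ k ∈ Finset.range N, (fourier (-(k : ℤ)) θ : ℂ) • (⇑U)^[k] f‖ ^ 2 / N : ℝ) : ℂ) := by
    intro N
    rw [← double_sum]
    have h3 : ((‖∑ k ∈ Finset.range N, (fourier (-(k : ℤ)) θ : ℂ) • (⇑U)^[k] f‖ ^ 2 : ℝ) : ℂ) =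
        ∑ k ∈ Finset.range N, ∑ l ∈ Finset.range N, F ((l : ℤ) - k) := by
      have h4 := inner_self_eq_norm_sq_to_K (𝕜 := ℂ)
        (∑ k ∈ Finset.range N, (fourier (-(k : ℤ)) θ : ℂ) • (⇑U)^[k] f)
      push_cast
      refine h4.symm.trans ?_
      rw [sum_inner]
      refine Finset.sum_congr rfl fun k _ => ?_
      rw [inner_sum]
      refine Finset.sum_congr rfl fun l _ => ?_
      rw [inner_smul_left, inner_smul_right, cf_sub]
      simp only [hF]
      have h5 : (fourier (-((l : ℤ) - k)) θ : ℂ) = conj (fourier (-(k : ℤ)) θ : ℂ) * fourier (-(l : ℤ)) θ := by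
        rw [← fourier_neg, neg_neg, ← fourier_add]
        congr 2; ring
      rw [h5]; ring
    push_cast at h3 ⊢
    rw [h3]
  simp_rw [hval] at hlim
  constructor
  · have h6 := (Complex.continuous_re.tendsto _).comp hlim
    refine ge_of_tendsto' h6 fun N => ?_
    simp only [Function.comp_apply, Complex.ofReal_re]
    positivity
  · have h6 := (Complex.continuous_im.tendsto _).comp hlim
    refine tendsto_nhds_unique h6 ?_
    simp only [Function.comp_def, Complex.ofReal_im]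
    exact tendsto_const_nhds

/-! ### integrals -/

lemma int_fourier (k : ℤ) : ∫ θ : UnitAddCircle, (fourier k θ : ℂ) = if k = 0 then 1 else 0 := by
  have h1 := congrFun (fourierCoeff_fourier (T := 1) k) 0
  unfold fourierCoeff at h1
  rw [AddCircle.integral_haarAddCircle] at h1
  simp only [neg_zero, fourier_zero, one_smul, inv_one] at h1
  refine h1.trans ?_
  rw [Pi.single_apply]
  by_cases hk : k = 0
  · simp [hk]
  · rw [if_neg hk, if_neg (Ne.symm hk)]

lemma int_R (U : E →ₗᵢ[ℂ] E) (f : E) (hs : Summable fun n => ‖cf U f f n‖) (m : ℤ) :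
    ∫ θ : UnitAddCircle, R U f θ * fourier m θ = cf U f f m := by
  have h1 : ∀ θ : UnitAddCircle, R U f θ * fourier m θ =
      ∑' n : ℤ, cf U f f n * (fourier (m - n) θ : ℂ) := by
    intro θ
    unfold R
    rw [← tsum_mul_right]
    refine tsum_congr fun n => ?_
    have h2 : (fourier (m - n) θ : ℂ) = fourier (-n) θ * fourier m θ := by
      rw [← fourier_add]; congr 2; ring
    rw [h2]; ring
  simp_rw [h1]
  have hint : ∀ n : ℤ, Integrable (fun θ : UnitAddCircle => cf U f f n * (fourier (m - n) θ : ℂ))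
      volume := by
    intro n
    have hc : Continuous fun θ : UnitAddCircle => cf U f f n * (fourier (m - n) θ : ℂ) :=
      continuous_const.mul (fourier (m - n)).continuous
    exact hc.integrable_of_hasCompactSupport (HasCompactSupport.of_compactSpace _)
  have hnorm : ∀ n : ℤ, ∫ θ : UnitAddCircle, ‖cf U f f n * (fourier (m - n) θ : ℂ)‖ =
      ‖cf U f f n‖ := by
    intro n
    have h3 : ∀ θ : UnitAddCircle, ‖cf U f f n * (fourier (m - n) θ : ℂ)‖ = ‖cf U f f n‖ := by
      intro θ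
      rw [norm_mul]
      have : ‖(fourier (m - n) θ : ℂ)‖ = 1 := by
        rw [fourier_apply]; exact Circle.norm_coe _
      rw [this, mul_one]
    simp_rw [h3]
    have hu : (volume : Measure UnitAddCircle).real Set.univ = 1 := by
      simp [Measure.real]
    rw [integral_const, hu, one_smul]
  have h4 := hasSum_integral_of_summable_integral_norm hint (by simp_rw [hnorm]; exact hs)
  have h5 : ∀ n : ℤ, ∫ θ : UnitAddCircle, cf U f f n * (fourier (m - n) θ : ℂ) =
      if n = m then cf U f f m else 0 := by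
    intro n
    rw [integral_const_mul, int_fourier]
    by_cases hn : n = m
    · rw [if_pos (by omega), if_pos hn, hn, mul_one]
    · rw [if_neg (by omega), if_neg hn, mul_zero]
  rw [← h4.tsum_eq]
  simp_rw [h5]
  exact tsum_ite_eq m _

/-- the density is real -/
lemma R_eq (U : E →ₗᵢ[ℂ] E) (f : E) (hs : Summable fun n => ‖cf U f f n‖) (θ : UnitAddCircle) :
    (((R U f θ).re : ℝ) : ℂ) = R U f θ := by
  have h := (R_pos U f hs θ).2
  apply Complex.ext
  · simp
  · simp [h]

lemma int_re (U : E →ₗᵢ[ℂ] E) (f : E) (hs : Summable fun n => ‖cf U f f n‖) :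
    ∫ θ : UnitAddCircle, (R U f θ).re = ‖f‖ ^ 2 := by
  have h1 := int_R U f hs 0
  have h2 : ∀ θ : UnitAddCircle, R U f θ * fourier 0 θ = (((R U f θ).re : ℝ) : ℂ) := by
    intro θ
    rw [R_eq U f hs, fourier_zero, mul_one]
  simp_rw [h2] at h1
  rw [integral_complex_ofReal] at h1
  have h3 : cf U f f 0 = ((‖f‖ ^ 2 : ℝ) : ℂ) := by
    unfold cf
    simp [inner_self_eq_norm_sq_to_K]
  rw [h3] at h1
  exact_mod_cast h1

lemma key (U : E →ₗᵢ[ℂ] E) (D : Submodule ℂ E) (hD : ∀ f ∈ D, Summable fun n => ‖cf U f f n‖)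
    (f g : E) (hf : f ∈ D) (hg : g ∈ D) (t : ℝ) (ht : 0 < t) (θ : UnitAddCircle) :
    |(R U f θ).re - (R U g θ).re| ≤ (t * (R U (f - g) θ).re + t⁻¹ * (R U (f + g) θ).re) / 2 := by
  have hs : 0 < √t := Real.sqrt_pos.mpr ht
  have hcf : ∀ (ε : ℝ), ε ^ 2 = 1 → ∀ n, cf U (((√t : ℝ) : ℂ) • (f - g) + ((ε * (√t)⁻¹ : ℝ) : ℂ) • (f + g))
      (((√t : ℝ) : ℂ) • (f - g) + ((ε * (√t)⁻¹ : ℝ) : ℂ) • (f + g)) n =
      t * cf U (f - g) (f - g) n + t⁻¹ * cf U (f + g) (f + g) n +
        ε * (2 * (cf U f f n - cf U g g n)) := by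
    intro ε hε n
    rw [cf_comb]
    have e1 : f = ((1 / 2 : ℝ) : ℂ) • (f - g) + ((1 / 2 : ℝ) : ℂ) • (f + g) := by
      rw [← smul_add, sub_add_add_cancel, ← two_smul ℂ f, smul_smul]
      simp
    have e2 : g = ((-1 / 2 : ℝ) : ℂ) • (f - g) + ((1 / 2 : ℝ) : ℂ) • (f + g) := by
      have : ((-1 / 2 : ℝ) : ℂ) • (f - g) = ((1 / 2 : ℝ) : ℂ) • (g - f) := by
        rw [← neg_sub g f, smul_neg, ← neg_smul]
        congr 1
        push_cast; ring
      rw [this, ← smul_add]
      have h3 : g - f + (f + g) = (2 : ℂ) • g := by rw [two_smul]; abel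
      rw [h3, smul_smul]
      simp
    have e3 := congrArg (fun h => cf U h h n) e1
    have e4 := congrArg (fun h => cf U h h n) e2
    beta_reduce at e3 e4
    rw [cf_comb] at e3 e4
    have e5 : (((√t : ℝ) : ℂ)) ^ 2 = (t : ℂ) := by
      rw [← Complex.ofReal_pow, Real.sq_sqrt ht.le]
    have e6 : ((ε * (√t)⁻¹ : ℝ) : ℂ) ^ 2 = (t⁻¹ : ℂ) := by
      rw [← Complex.ofReal_pow, mul_pow, hε, inv_pow, Real.sq_sqrt ht.le]
      push_cast; ring
    have e7 : ((√t : ℝ) : ℂ) * ((ε * (√t)⁻¹ : ℝ) : ℂ) = ε := by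
      rw [← Complex.ofReal_mul]
      congr 1
      field_simp
    rw [e5, e6, e7]
    push_cast at e3 e4 ⊢
    linear_combination (-2 * (ε : ℂ)) * e3 + (2 * (ε : ℂ)) * e4
  have hR : ∀ (ε : ℝ), ε ^ 2 = 1 →
      0 ≤ t * (R U (f - g) θ).re + t⁻¹ * (R U (f + g) θ).re +
        ε * (2 * ((R U f θ).re - (R U g θ).re)) := by
    intro ε hε
    set A := ((√t : ℝ) : ℂ) • (f - g) + ((ε * (√t)⁻¹ : ℝ) : ℂ) • (f + g) with hA
    have hAD : A ∈ D := D.add_mem (D.smul_mem _ (D.sub_mem hf hg)) (D.smul_mem _ (D.add_mem hf hg))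
    have h1 := (R_pos U A (hD A hAD) θ).1
    have s1 := (summ_term U (f - g) (hD _ (D.sub_mem hf hg)) θ).hasSum
    have s2 := (summ_term U (f + g) (hD _ (D.add_mem hf hg)) θ).hasSum
    have s3 := (summ_term U f (hD _ hf) θ).hasSum
    have s4 := (summ_term U g (hD _ hg) θ).hasSum
    have s5 := (summ_term U A (hD _ hAD) θ).hasSum
    have s6 := ((s1.mul_left (t : ℂ)).add (s2.mul_left (t : ℂ)⁻¹)).add
      ((s3.sub s4).mul_left ((ε : ℂ) * 2))
    have h2 : R U A θ = t * R U (f - g) θ + (t : ℂ)⁻¹ * R U (f + g) θ +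
        (ε : ℂ) * 2 * (R U f θ - R U g θ) := by
      refine s5.unique ?_
      have hfun : (fun n : ℤ => cf U A A n * fourier (-n) θ) = fun n : ℤ =>
          (t : ℂ) * (cf U (f - g) (f - g) n * fourier (-n) θ) +
          (t : ℂ)⁻¹ * (cf U (f + g) (f + g) n * fourier (-n) θ) +
          (ε : ℂ) * 2 * (cf U f f n * fourier (-n) θ - cf U g g n * fourier (-n) θ) := by
        funext n
        rw [hA, hcf ε hε n]
        push_cast
        ring
      rw [hfun]
      exact s6
    rw [h2, ← R_eq U (f - g) (hD _ (D.sub_mem hf hg)), ← R_eq U (f + g) (hD _ (D.add_mem hf hg)),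
      ← R_eq U f (hD _ hf), ← R_eq U g (hD _ hg)] at h1
    have h3 : ((t : ℂ) * (((R U (f - g) θ).re : ℝ) : ℂ) + (t : ℂ)⁻¹ * (((R U (f + g) θ).re : ℝ) : ℂ) +
        (ε : ℂ) * 2 * ((((R U f θ).re : ℝ) : ℂ) - (((R U g θ).re : ℝ) : ℂ))) =
        ((t * (R U (f - g) θ).re + t⁻¹ * (R U (f + g) θ).re +
        ε * (2 * ((R U f θ).re - (R U g θ).re)) : ℝ) : ℂ) := by
      push_cast; ring
    rw [h3, Complex.ofReal_re] at h1
    exact h1
  have h1 := hR 1 (by norm_num)
  have h2 := hR (-1) (by norm_num)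
  rw [abs_le]
  constructor <;> linarith

lemma key_int (U : E →ₗᵢ[ℂ] E) (D : Submodule ℂ E) (hD : ∀ f ∈ D, Summable fun n => ‖cf U f f n‖)
    (f g : E) (hf : f ∈ D) (hg : g ∈ D) (t : ℝ) (ht : 0 < t) :
    ∫ θ : UnitAddCircle, |(R U f θ).re - (R U g θ).re| ≤
      (t * ‖f - g‖ ^ 2 + t⁻¹ * ‖f + g‖ ^ 2) / 2 := by
  have hint : ∀ h : UnitAddCircle → ℝ, Continuous h → Integrable h volume := fun h hh =>
    hh.integrable_of_hasCompactSupport (HasCompactSupport.of_compactSpace _)
  have c : ∀ h ∈ D, Continuous fun θ => (R U h θ).re := fun h hh =>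
    Complex.continuous_re.comp (R_cont U h (hD h hh))
  have c1 := c _ hf
  have c2 := c _ hg
  have c3 := c _ (D.sub_mem hf hg)
  have c4 := c _ (D.add_mem hf hg)
  calc ∫ θ : UnitAddCircle, |(R U f θ).re - (R U g θ).re|
      ≤ ∫ θ : UnitAddCircle, (t * (R U (f - g) θ).re + t⁻¹ * (R U (f + g) θ).re) / 2 := by
        refine integral_mono (hint _ (c1.sub c2).abs) (hint _ (by fun_prop)) fun θ => ?_
        exact key U D hD f g hf hg t ht θ
    _ = _ := by
        rw [integral_div, integral_add (hint _ (by fun_prop)) (hint _ (by fun_prop)),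
          integral_const_mul, integral_const_mul, int_re U _ (hD _ (D.sub_mem hf hg)),
          int_re U _ (hD _ (D.add_mem hf hg))]

theorem main : Pool.Agent.W744.NG.S_AC := by
  intro E _ _ U D hsum f hf
  have hD : ∀ f ∈ D, Summable fun n => ‖cf U f f n‖ := by
    intro f hf
    have h1 := hsum f hf f hf
    refine Summable.of_nat_of_neg ?_ ?_
    · refine h1.congr fun n => ?_
      have : cf U f f (n : ℤ) = inner ℂ f ((⇑U)^[n] f) := by
        have := cf_sub U f f 0 n
        simpa using this.symm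
      rw [this, norm_inner_symm]
    · refine h1.congr fun n => ?_
      have : cf U f f (-(n : ℤ)) = inner ℂ ((⇑U)^[n] f) f := by
        have := cf_sub U f f n 0
        simpa using this.symm
      rw [this]
  have hint : ∀ h : UnitAddCircle → ℝ, Continuous h → Integrable h volume := fun h hh =>
    hh.integrable_of_hasCompactSupport (HasCompactSupport.of_compactSpace _)
  obtain ⟨u, huD, hu⟩ := mem_closure_iff_seq_limit.mp hf
  have hc : ∀ k, Continuous fun θ => (R U (u k) θ).re := fun k =>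
    Complex.continuous_re.comp (R_cont U (u k) (hD _ (huD k)))
  let g : ℕ → (UnitAddCircle →₁[volume] ℝ) := fun k => (hint _ (hc k)).toL1 _
  obtain ⟨C, hC⟩ : ∃ C : ℝ, ∀ k, ‖u k‖ ≤ C := by
    obtain ⟨C, hC⟩ := hu.norm.bddAbove_range
    exact ⟨C, fun k => hC ⟨k, rfl⟩⟩
  have hC0 : 0 ≤ C := (norm_nonneg (u 0)).trans (hC 0)
  have hdist : ∀ k l, dist (g k) (g l) = ∫ θ : UnitAddCircle, |(R U (u k) θ).re - (R U (u l) θ).re| := by
    intro k l
    rw [dist_eq_norm]
    simp only [g]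
    rw [← Integrable.toL1_sub, L1.norm_of_fun_eq_integral_norm]
    rfl
  have hcau : CauchySeq g := by
    rw [Metric.cauchySeq_iff]
    intro ε hε
    have hM : 0 < 2 * C + 1 := by linarith
    obtain ⟨N, hN⟩ := Metric.cauchySeq_iff.mp hu.cauchySeq (ε / (2 * (2 * C + 1))) (by positivity)
    refine ⟨N, fun k hk l hl => ?_⟩
    have h1 := hN k hk l hl
    rw [dist_eq_norm] at h1
    set δ := ε / (2 * (2 * C + 1)) with hδ
    have hδ0 : 0 < δ := by positivity
    rw [hdist]
    have h2 := key_int U D hD (u k) (u l) (huD k) (huD l) ((2 * C + 1) / δ) (by positivity)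
    have h3 : ‖u k + u l‖ ≤ 2 * C + 1 := by
      have := norm_add_le (u k) (u l)
      have := hC k
      have := hC l
      linarith
    have h4 : ((2 * C + 1) / δ * ‖u k - u l‖ ^ 2 + ((2 * C + 1) / δ)⁻¹ * ‖u k + u l‖ ^ 2) / 2 ≤
        ((2 * C + 1) / δ * δ ^ 2 + ((2 * C + 1) / δ)⁻¹ * (2 * C + 1) ^ 2) / 2 := by
      gcongr
    have h5 : ((2 * C + 1) / δ * δ ^ 2 + ((2 * C + 1) / δ)⁻¹ * (2 * C + 1) ^ 2) / 2 =
        (2 * C + 1) * δ := by
      field_simp
      ring
    have h6 : (2 * C + 1) * δ = ε / 2 := by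
      rw [hδ]; field_simp
    linarith
  obtain ⟨G, hG⟩ := cauchySeq_tendsto_of_complete hcau
  have hGi : Integrable (fun θ => |G θ|) volume := (L1.integrable_coeFn G).abs
  have hGm : Measurable fun θ => ENNReal.ofReal |G θ| :=
    ((Lp.stronglyMeasurable G).measurable.abs).ennreal_ofReal
  refine ⟨volume.withDensity fun θ => ENNReal.ofReal |G θ|, isFiniteMeasure_withDensity_ofReal hGi.2,
    withDensity_absolutelyContinuous _ _, fun n => ?_⟩
  rw [integral_withDensity_eq_integral_toReal_smul hGm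
    (Eventually.of_forall fun θ => ENNReal.ofReal_lt_top)]
  simp_rw [ENNReal.toReal_ofReal (abs_nonneg _)]
  have hfo : ∀ θ : UnitAddCircle, ‖(fourier (n : ℤ) θ : ℂ)‖ = 1 := by
    intro θ
    rw [fourier_apply]; exact Circle.norm_coe _
  have hfoc : Continuous fun θ : UnitAddCircle => (fourier (n : ℤ) θ : ℂ) :=
    (fourier (n : ℤ)).continuous
  have hlim1 : Tendsto (fun k => ∫ θ : UnitAddCircle, (R U (u k) θ).re • (fourier (n : ℤ) θ : ℂ))
      atTop (𝓝 (∫ θ : UnitAddCircle, |G θ| • (fourier (n : ℤ) θ : ℂ))) := by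
    rw [tendsto_iff_norm_sub_tendsto_zero]
    refine squeeze_zero (fun k => norm_nonneg _) (fun k => ?_)
      (tendsto_iff_norm_sub_tendsto_zero.mp hG)
    have i1 : Integrable (fun θ : UnitAddCircle => (R U (u k) θ).re • (fourier (n : ℤ) θ : ℂ)) volume := by
      have : Continuous fun θ : UnitAddCircle => (R U (u k) θ).re • (fourier (n : ℤ) θ : ℂ) :=
        (hc k).smul hfoc
      exact this.integrable_of_hasCompactSupport (HasCompactSupport.of_compactSpace _)
    have i2 : Integrable (fun θ : UnitAddCircle => |G θ| • (fourier (n : ℤ) θ : ℂ)) volume := by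
      refine hGi.mono' (hGi.1.smul hfoc.aestronglyMeasurable) (Eventually.of_forall fun θ => ?_)
      rw [norm_smul, hfo, mul_one, Real.norm_eq_abs, abs_abs]
    rw [← integral_sub i1 i2]
    have h7 : ‖g k - G‖ = ∫ θ : UnitAddCircle, |(R U (u k) θ).re - G θ| := by
      rw [L1.norm_eq_integral_norm]
      refine integral_congr_ae ?_
      filter_upwards [Lp.coeFn_sub (g k) G, Integrable.coeFn_toL1 (hint _ (hc k))] with θ h8 h9
      rw [h8, Pi.sub_apply, Real.norm_eq_abs]
      rw [h9]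
    rw [h7]
    refine (norm_integral_le_integral_norm _).trans ?_
    refine integral_mono ?_ ?_ fun θ => ?_
    · exact (i1.sub i2).norm
    · exact ((hint _ (hc k)).sub (L1.integrable_coeFn G)).abs
    · rw [← sub_smul, norm_smul, hfo, mul_one, Real.norm_eq_abs]
      have h10 : (R U (u k) θ).re = |(R U (u k) θ).re| :=
        (abs_of_nonneg (R_pos U (u k) (hD _ (huD k)) θ).1).symm
      rw [h10]
      refine (abs_abs_sub_abs_le_abs_sub _ _).trans ?_
      rw [← h10]
  have hlim2 : Tendsto (fun k => ∫ θ : UnitAddCircle, (R U (u k) θ).re • (fourier (n : ℤ) θ : ℂ))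
      atTop (𝓝 (inner ℂ f ((⇑U)^[n] f))) := by
    have h1 : ∀ k, ∫ θ : UnitAddCircle, (R U (u k) θ).re • (fourier (n : ℤ) θ : ℂ) =
        inner ℂ (u k) ((⇑U)^[n] (u k)) := by
      intro k
      have h2 := int_R U (u k) (hD _ (huD k)) n
      have h3 : cf U (u k) (u k) (n : ℤ) = inner ℂ (u k) ((⇑U)^[n] (u k)) := by
        have := cf_sub U (u k) (u k) 0 n
        simpa using this.symm
      rw [← h3, ← h2]
      refine integral_congr_ae (Eventually.of_forall fun θ => ?_)
      beta_reduce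
      rw [← R_eq U (u k) (hD _ (huD k))]
      simp
    simp_rw [h1]
    have hcont : Continuous ((⇑U)^[n]) := U.continuous.iterate n
    exact hu.inner ((hcont.tendsto f).comp hu)
  exact tendsto_nhds_unique hlim1 hlim2

end Pool.Agent.W338.NGAC
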