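import Pool.Agent.W744.NG.Stubs

/-! # Assembly of the next stage -/

set_option autoImplicit false

namespace Pool.Agent.W338.NGNEXTA

open Pool.Agent.W744.NG Finset

/-! ### digits -/

/-- digits of `k` in base `n` -/
def kap (d : ℕ) {n : ℕ} (hn : 0 < n) (k : ℕ) : Fin d → Fin n :=
  fun i => ⟨k / n ^ (i : ℕ) % n, Nat.mod_lt _ hn⟩

lemma kap_mod (d : ℕ) {n : ℕ} (hn : 0 < n) (k : ℕ) : kap d hn (k % n ^ d) = kap d hn k := by
  funext i
  apply Fin.ext
  simp only [kap]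
  have h1 : n ^ d = n ^ (i : ℕ) * n ^ (d - i) := by
    rw [← pow_add]; congr 1; omega
  rw [h1, Nat.mod_mul_right_div_self]
  have h2 : n ∣ n ^ (d - i) := dvd_pow_self n (by omega)
  exact Nat.mod_mod_of_dvd _ h2

lemma mod_eq_of_kap (d : ℕ) {n : ℕ} (hn : 0 < n) (k k' : ℕ) (h : kap d hn k = kap d hn k') :
    k % n ^ d = k' % n ^ d := by
  induction d with
  | zero => simp [Nat.mod_one]
  | succ d ih =>
    have h1 : kap d hn k = kap d hn k' := by
      funext i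
      have := congrFun h i.castSucc
      apply Fin.ext
      have h2 := congrArg Fin.val this
      exact h2
    have h2 := ih h1
    have h3 := congrArg Fin.val (congrFun h (Fin.last d))
    simp only [kap, Fin.val_last] at h3
    rw [pow_succ, Nat.mod_mul, Nat.mod_mul, h2, h3]

/-- adding `n ^ i` without carry changes only digit `i` -/
lemma kap_add (d : ℕ) {n : ℕ} (hn : 0 < n) (k : ℕ) (i : Fin d)
    (hk : k / n ^ (i : ℕ) % n ≠ n - 1) (i' : Fin d) (hi : i' ≠ i) :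
    kap d hn (k + n ^ (i : ℕ)) i' = kap d hn k i' := by
  apply Fin.ext
  simp only [kap]
  rcases lt_or_gt_of_ne (fun h : (i' : ℕ) = i => hi (Fin.ext h)) with h | h
  · have h1 : n ^ (i : ℕ) = n ^ (i' : ℕ) * n ^ ((i : ℕ) - i') := by
      rw [← pow_add]; congr 1; omega
    have hpos : 0 < n ^ (i' : ℕ) := Nat.pow_pos hn
    rw [h1, Nat.add_mul_div_left _ _ hpos]
    have h2 : n ∣ n ^ ((i : ℕ) - i') := dvd_pow_self n (by omega)
    obtain ⟨c, hc⟩ := h2
    rw [hc, Nat.add_mul_mod_self_left]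
  · have h1 : n ^ (i' : ℕ) = n ^ (i : ℕ) * (n * n ^ ((i' : ℕ) - i - 1)) := by
      calc n ^ (i' : ℕ) = n ^ ((i : ℕ) + (((i' : ℕ) - i - 1) + 1)) :=
            congrArg (fun z => n ^ z) (by omega)
        _ = _ := by rw [pow_add, pow_succ']
    have hpos : 0 < n ^ (i : ℕ) := Nat.pow_pos hn
    have h2 : (k + n ^ (i : ℕ)) / n ^ (i : ℕ) = k / n ^ (i : ℕ) + 1 :=
      Nat.add_div_right _ hpos
    rw [h1, ← Nat.div_div_eq_div_mul, ← Nat.div_div_eq_div_mul, h2, ← Nat.div_div_eq_div_mul,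
      ← Nat.div_div_eq_div_mul]
    congr 2
    have h3 : ¬ n ∣ k / n ^ (i : ℕ) + 1 := by
      intro hd
      apply hk
      have h4 := Nat.mod_lt (k / n ^ (i : ℕ)) hn
      obtain ⟨c, hc⟩ := hd
      have hc0 : 0 < c := by
        rcases Nat.eq_zero_or_pos c with h0 | h0
        · rw [h0, mul_zero] at hc; exact absurd hc (Nat.succ_ne_zero _)
        · exact h0
      obtain ⟨c', rfl⟩ := Nat.exists_eq_add_of_lt hc0
      have h5 : k / n ^ (i : ℕ) = n - 1 + n * c' := by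
        have h6 : n * (0 + c' + 1) = n * c' + n := by ring
        rw [h6] at hc
        generalize k / n ^ (i : ℕ) = z at hc
        generalize n * c' = w at hc ⊢
        omega
      rw [h5, Nat.add_mul_mod_self_left]
      exact Nat.mod_eq_of_lt (by omega)
    exact Nat.succ_div_of_not_dvd h3

/-! ### counting -/

lemma count_le (B n C c : ℕ) (hB : 0 < B) :
    ((range (B * n * C)).filter (fun s => s / B % n = c)).card ≤ B * C := by
  have h1 : (range B ×ˢ range C).card = B * C := by rw [card_product, card_range, card_range]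
  rw [← h1]
  refine card_le_card_of_injOn (fun s => (s % B, s / B / n)) ?_ ?_
  · intro s hs
    rw [coe_filter] at hs
    have hs1 : s < B * n * C := by simpa using hs.1
    rw [mem_coe, mem_product, mem_range, mem_range]
    refine ⟨Nat.mod_lt _ hB, ?_⟩
    change s / B / n < C
    rw [Nat.div_div_eq_div_mul]
    exact Nat.div_lt_of_lt_mul hs1
  · intro s hs s' hs' h
    rw [coe_filter] at hs hs'
    have h2 : s / B % n = c := hs.2
    have h3 : s' / B % n = c := hs'.2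
    simp only [Prod.mk.injEq] at h
    have h4 := Nat.div_add_mod s B
    have h5 := Nat.div_add_mod s' B
    have h6 := Nat.div_add_mod (s / B) n
    have h7 := Nat.div_add_mod (s' / B) n
    rw [← h4, ← h5, h.1, ← h6, ← h7, h.2, h2, h3]

lemma sum_mod (H C : ℕ) (g : ℕ → ℂ) :
    ∑ s ∈ range (H * C), g (s % H) = C * ∑ t ∈ range H, g t := by
  induction C with
  | zero => simp
  | succ C ih =>
    rw [Nat.mul_succ, sum_range_add, ih]
    have : ∑ x ∈ range H, g ((H * C + x) % H) = ∑ t ∈ range H, g t := by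
      refine sum_congr rfl fun x hx => ?_
      rw [Nat.mul_add_mod, Nat.mod_eq_of_lt (mem_range.mp hx)]
    rw [this]; push_cast; ring

lemma sum_lt (H j : ℕ) (hH : 0 < H) :
    (∑ t ∈ range H, if t + j < H then (1 : ℂ) else 0) =
      H * (if j ≤ H then 1 - (j : ℂ) / H else 0) := by
  have hH' : (H : ℂ) ≠ 0 := by exact_mod_cast hH.ne'
  rw [← sum_filter, sum_const, nsmul_eq_mul, mul_one]
  by_cases hj : j ≤ H
  · rw [if_pos hj]
    have h1 : (range H).filter (fun t => t + j < H) = range (H - j) := by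
      ext t; simp only [mem_filter, mem_range]; omega
    rw [h1, card_range, Nat.cast_sub hj]
    field_simp
  · rw [if_neg hj]
    have h1 : (range H).filter (fun t => t + j < H) = ∅ := by
      rw [filter_eq_empty_iff]; intro t _; omega
    rw [h1]; simp

/-! ### rotation -/

/-- rotation of the time coordinate -/
def rot (Ω : Type) (K : ℕ) [NeZero K] : Equiv.Perm (Ω × Fin K) :=
  Equiv.prodCongr (Equiv.refl Ω) (Equiv.addRight 1)

lemma rot_pow {Ω : Type} {K : ℕ} [NeZero K] (j : ℕ) (x : Ω × Fin K) :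
    ((rot Ω K ^ j) x).1 = x.1 ∧ (((rot Ω K ^ j) x).2 : ℕ) = ((x.2 : ℕ) + j) % K := by
  induction j with
  | zero => exact ⟨rfl, by simp [Nat.mod_eq_of_lt x.2.2]⟩
  | succ j ih =>
    rw [pow_succ', Equiv.Perm.mul_apply]
    obtain ⟨h1, h2⟩ := ih
    refine ⟨?_, ?_⟩
    · rw [← h1]; rfl
    · have h3 : ((rot Ω K) ((rot Ω K ^ j) x)).2 = ((rot Ω K ^ j) x).2 + 1 := rfl
      rw [h3, Fin.val_add, h2]
      have h4 : ((1 : Fin K) : ℕ) = 1 % K := rfl
      rw [h4, ← Nat.add_mod]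
      congr 1

/-! ### the construction -/

section
variable {m r d n H : ℕ} (hn : 0 < n) {V : Type} [Fintype V] (e : (Fin m → ZMod 2) ≃ V)
  (σ : Equiv.Perm V) (lb : Fin d ≃ Fin r × (Fin m → ZMod 2))

/-- the label at time `s` -/
def PP (H : ℕ) (ω : Fin d → Fin n → (Fin m → ZMod 2)) (s : ℕ) : V :=
  (σ ^ (s % H)) (e (ltr ω (kap d hn (s / H))))

/-- the gauge at time `s` -/
def GG (H : ℕ) (ω : Fin d → Fin n → (Fin m → ZMod 2)) (s : ℕ) : Fin r → ZMod 2 :=
  gau lb ω (kap d hn (s / H))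

lemma div_mod_eq (s : ℕ) : kap d hn ((s % (n ^ d * H)) / H) = kap d hn (s / H) := by
  rw [mul_comm, Nat.mod_mul_right_div_self, kap_mod]

lemma mod_mod_eq (s : ℕ) : (s % (n ^ d * H)) % H = s % H :=
  Nat.mod_mod_of_dvd _ (Dvd.intro_left _ rfl)

omit [Fintype V] in
lemma PP_mod (ω : Fin d → Fin n → (Fin m → ZMod 2)) (s : ℕ) :
    PP hn e σ H ω (s % (n ^ d * H)) = PP hn e σ H ω s := by
  unfold PP; rw [div_mod_eq, mod_mod_eq]

lemma GG_mod (ω : Fin d → Fin n → (Fin m → ZMod 2)) (s : ℕ) :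
    GG hn lb H ω (s % (n ^ d * H)) = GG hn lb H ω s := by
  unfold GG; rw [div_mod_eq]

/-- letters at one time are uniform -/
lemma sum_one (hLet : S_Let) (hd : 0 < d) (φ : V → ℂ) (s : ℕ) :
    (2 ^ m : ℂ) * ∑ ω : Fin d → Fin n → (Fin m → ZMod 2), φ (PP hn e σ H ω s) =
      (2 ^ m : ℂ) ^ (d * n) * ∑ x, φ x := by
  have h1 := (hLet (Fin m → ZMod 2) d n (fun a => φ ((σ ^ (s % H)) (e a))) (fun _ => 0)
    (kap d hn (s / H)) (kap d hn (s / H)) hd).1
  have h2 : (Fintype.card (Fin m → ZMod 2) : ℂ) = 2 ^ m := by simp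
  rw [h2] at h1
  refine h1.trans ?_
  congr 1
  exact Equiv.sum_comp (e.trans (σ ^ (s % H))) φ

/-- correlations at two times -/
lemma sum_two (hLet : S_Let) (hd : 0 < d) (hH : 0 < H) (φ φ' : V → ℂ) (h0 : ∑ x, φ x = 0)
    (j s : ℕ) (hj : j + H ≤ n ^ d * H) :
    (2 ^ m : ℂ) * ∑ ω : Fin d → Fin n → (Fin m → ZMod 2),
      φ (PP hn e σ H ω (s + j)) * φ' (PP hn e σ H ω s) =
      (2 ^ m : ℂ) ^ (d * n) *
        (if s % H + j < H then ∑ x, φ ((σ ^ j) x) * φ' x else 0) := by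
  have h2 : (Fintype.card (Fin m → ZMod 2) : ℂ) = 2 ^ m := by simp
  by_cases hc : s % H + j < H
  · rw [if_pos hc]
    have e0 : s + j = H * (s / H) + (s % H + j) := by
      have := Nat.div_add_mod s H; omega
    have e1 : (s + j) / H = s / H := by
      rw [e0, Nat.mul_add_div hH, Nat.div_eq_of_lt hc, add_zero]
    have e2 : (s + j) % H = s % H + j := by
      rw [e0, Nat.mul_add_mod, Nat.mod_eq_of_lt hc]
    have e3 : ∀ ω : Fin d → Fin n → (Fin m → ZMod 2),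
        φ (PP hn e σ H ω (s + j)) * φ' (PP hn e σ H ω s) =
        (fun x => φ ((σ ^ j) x) * φ' x) (PP hn e σ H ω s) := by
      intro ω
      unfold PP
      rw [e1, e2, add_comm (s % H) j, pow_add, Equiv.Perm.mul_apply]
    simp_rw [e3]
    exact sum_one hn e σ hLet hd (fun x => φ ((σ ^ j) x) * φ' x) s
  · rw [if_neg hc, mul_zero]
    have hq1 : s / H + 1 ≤ (s + j) / H := by
      rw [Nat.le_div_iff_mul_le hH]
      have := Nat.div_add_mod s H
      push Not at hc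
      nlinarith
    have hq2 : (s + j) / H + 1 ≤ s / H + n ^ d := by
      have h5 : (s + j) / H < s / H + n ^ d := by
        rw [Nat.div_lt_iff_lt_mul hH]
        have h6 := Nat.div_add_mod s H
        have h7 := Nat.mod_lt s hH
        nlinarith
      exact h5
    have hne : kap d hn ((s + j) / H) ≠ kap d hn (s / H) := by
      intro h
      have h8 := mod_eq_of_kap d hn _ _ h
      have h9 : (s + j) / H ≡ s / H [MOD n ^ d] := h8
      have h10 := (Nat.modEq_iff_dvd' (by omega : s / H ≤ (s + j) / H)).mp h9.symm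
      have h11 := Nat.le_of_dvd (by omega) h10
      omega
    have h3 := (hLet (Fin m → ZMod 2) d n (fun a => φ ((σ ^ ((s + j) % H)) (e a)))
      (fun a => φ' ((σ ^ (s % H)) (e a))) (kap d hn ((s + j) / H)) (kap d hn (s / H)) hd).2 hne
    have h4 : ∑ a, φ ((σ ^ ((s + j) % H)) (e a)) = 0 := by
      rw [← h0]
      exact Equiv.sum_comp (e.trans (σ ^ ((s + j) % H))) φ
    rw [h4, zero_mul, mul_zero, h2] at h3
    have h5 : (2 ^ m : ℂ) ≠ 0 := pow_ne_zero _ two_ne_zero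
    have h6 : ∑ ω : Fin d → Fin n → (Fin m → ZMod 2),
        φ ((σ ^ ((s + j) % H)) (e (ltr ω (kap d hn ((s + j) / H))))) *
        φ' ((σ ^ (s % H)) (e (ltr ω (kap d hn (s / H))))) = 0 := by
      rcases mul_eq_zero.mp h3 with h | h
      · exact absurd h (pow_ne_zero _ h5)
      · exact h
    unfold PP
    rw [h6, mul_zero]

/-! ### the fields of `Nxt` -/

variable [NeZero (n ^ d * H)]

/-- factor map -/
def pp (H : ℕ) (x : (Fin d → Fin n → (Fin m → ZMod 2)) × Fin (n ^ d * H)) : V :=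
  PP hn e σ H x.1 x.2

/-- gauge -/
def gg (H : ℕ) (x : (Fin d → Fin n → (Fin m → ZMod 2)) × Fin (n ^ d * H)) : Fin r → ZMod 2 :=
  GG hn lb H x.1 x.2

omit [Fintype V] in
lemma pp_pow (j : ℕ) (x : (Fin d → Fin n → (Fin m → ZMod 2)) × Fin (n ^ d * H)) :
    pp hn e σ H ((rot _ _ ^ j) x) = PP hn e σ H x.1 (x.2 + j) := by
  unfold pp
  rw [(rot_pow j x).1, (rot_pow j x).2, PP_mod]

lemma gg_pow (j : ℕ) (x : (Fin d → Fin n → (Fin m → ZMod 2)) × Fin (n ^ d * H)) :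
    gg hn lb H ((rot _ _ ^ j) x) = GG hn lb H x.1 (x.2 + j) := by
  unfold gg
  rw [(rot_pow j x).1, (rot_pow j x).2, GG_mod]

omit [NeZero (n ^ d * H)] in
lemma sum_V' {M : Type*} [AddCommMonoid M]
    (g : (Fin d → Fin n → (Fin m → ZMod 2)) → ℕ → M) :
    ∑ x : (Fin d → Fin n → (Fin m → ZMod 2)) × Fin (n ^ d * H), g x.1 x.2 =
      ∑ s ∈ range (n ^ d * H), ∑ ω, g ω s := by
  rw [Fintype.sum_prod_type_right]
  exact Fin.sum_univ_eq_sum_range (fun s => ∑ ω, g ω s) _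

omit [NeZero (n ^ d * H)] in
lemma card_V' : Fintype.card ((Fin d → Fin n → (Fin m → ZMod 2)) × Fin (n ^ d * H)) =
    (2 ^ m) ^ (d * n) * (n ^ d * H) := by
  rw [Fintype.card_prod, Fintype.card_fin]
  congr 1
  simp only [Fintype.card_pi, ZMod.card, prod_const, card_univ, Fintype.card_fin]
  rw [← pow_mul]
  ring

omit [NeZero (n ^ d * H)] in
lemma fib (hLet : S_Let) (hd : 0 < d) (i : V) :
    Nat.card {x : (Fin d → Fin n → (Fin m → ZMod 2)) × Fin (n ^ d * H) //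
      pp hn e σ H x = i} * Fintype.card V =
      Fintype.card ((Fin d → Fin n → (Fin m → ZMod 2)) × Fin (n ^ d * H)) := by
  classical
  have hcV : Fintype.card V = 2 ^ m := by
    rw [← Fintype.card_congr e]; simp
  have h1 : (Nat.card {x : (Fin d → Fin n → (Fin m → ZMod 2)) × Fin (n ^ d * H) //
      pp hn e σ H x = i} : ℂ) =
      ∑ s ∈ range (n ^ d * H), ∑ ω : Fin d → Fin n → (Fin m → ZMod 2),
        (if PP hn e σ H ω s = i then (1 : ℂ) else 0) := by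
    rw [← sum_V' (fun ω s => if PP hn e σ H ω s = i then (1 : ℂ) else 0),
      Nat.card_eq_fintype_card, Fintype.card_subtype, ← sum_filter, sum_const, nsmul_eq_mul, mul_one]
    rfl
  have h2 : (2 ^ m : ℂ) * (Nat.card {x : (Fin d → Fin n → (Fin m → ZMod 2)) × Fin (n ^ d * H) //
      pp hn e σ H x = i} : ℂ) = (2 ^ m : ℂ) ^ (d * n) * ((n ^ d * H : ℕ) : ℂ) := by
    rw [h1, mul_sum]
    have h3 : ∀ s ∈ range (n ^ d * H), (2 ^ m : ℂ) * ∑ ω : Fin d → Fin n → (Fin m → ZMod 2),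
        (if PP hn e σ H ω s = i then (1 : ℂ) else 0) = (2 ^ m : ℂ) ^ (d * n) := by
      intro s _
      rw [sum_one hn e σ hLet hd (fun x => if x = i then (1 : ℂ) else 0) s]
      simp
    rw [sum_congr rfl h3, sum_const, card_range, nsmul_eq_mul, mul_comm]
  rw [card_V', hcV]
  have h4 : 2 ^ m * Nat.card {x : (Fin d → Fin n → (Fin m → ZMod 2)) × Fin (n ^ d * H) //
      pp hn e σ H x = i} = (2 ^ m) ^ (d * n) * (n ^ d * H) := by
    exact_mod_cast h2
  rw [← h4, mul_comm]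

lemma per : (rot (Fin d → Fin n → (Fin m → ZMod 2)) (n ^ d * H)) ^ (n ^ d * H) = 1 := by
  ext1 x
  rw [Equiv.Perm.one_apply]
  obtain ⟨h1, h2⟩ := rot_pow (n ^ d * H) x
  refine Prod.ext h1 (Fin.ext ?_)
  rw [h2, Nat.add_mod_right, Nat.mod_eq_of_lt x.2.2]

omit [Fintype V] in
lemma time (hH : 0 < H) :
    H * Nat.card {x : (Fin d → Fin n → (Fin m → ZMod 2)) × Fin (n ^ d * H) //
      ¬ ((((rot _ _ x).2 : ℕ) % H = (x.2 : ℕ) % H + 1) ∧
        gg hn lb H (rot _ _ x) = gg hn lb H x ∧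
        pp hn e σ H (rot _ _ x) = σ (pp hn e σ H x))} ≤
      Fintype.card ((Fin d → Fin n → (Fin m → ZMod 2)) × Fin (n ^ d * H)) := by
  classical
  have h1 : ∀ x : (Fin d → Fin n → (Fin m → ZMod 2)) × Fin (n ^ d * H),
      (x.2 : ℕ) % H ≠ H - 1 →
      ((((rot _ _ x).2 : ℕ) % H = (x.2 : ℕ) % H + 1) ∧
        gg hn lb H (rot _ _ x) = gg hn lb H x ∧
        pp hn e σ H (rot _ _ x) = σ (pp hn e σ H x)) := by
    intro x hx
    have hlt : (x.2 : ℕ) % H + 1 < H := by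
      have := Nat.mod_lt (x.2 : ℕ) hH; omega
    have e0 : (x.2 : ℕ) + 1 = H * ((x.2 : ℕ) / H) + ((x.2 : ℕ) % H + 1) := by
      have := Nat.div_add_mod (x.2 : ℕ) H; omega
    have e1 : ((x.2 : ℕ) + 1) / H = (x.2 : ℕ) / H := by
      rw [e0, Nat.mul_add_div hH, Nat.div_eq_of_lt hlt, add_zero]
    have e2 : ((x.2 : ℕ) + 1) % H = (x.2 : ℕ) % H + 1 := by
      rw [e0, Nat.mul_add_mod, Nat.mod_eq_of_lt hlt]
    have e3 := rot_pow 1 x
    rw [pow_one] at e3
    have e4 := pp_pow hn e σ 1 x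
    have e5 := gg_pow hn lb 1 x
    rw [pow_one] at e4 e5
    refine ⟨?_, ?_, ?_⟩
    · rw [e3.2, mod_mod_eq, e2]
    · rw [e5]
      unfold gg GG
      rw [e1]
    · rw [e4]
      unfold pp PP
      rw [e1, e2, pow_succ', Equiv.Perm.mul_apply]
  have h2 : Nat.card {x : (Fin d → Fin n → (Fin m → ZMod 2)) × Fin (n ^ d * H) //
      ¬ ((((rot _ _ x).2 : ℕ) % H = (x.2 : ℕ) % H + 1) ∧
        gg hn lb H (rot _ _ x) = gg hn lb H x ∧
        pp hn e σ H (rot _ _ x) = σ (pp hn e σ H x))} ≤ (2 ^ m) ^ (d * n) * n ^ d := by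
    calc _ ≤ Nat.card {x : (Fin d → Fin n → (Fin m → ZMod 2)) × Fin (n ^ d * H) //
        (x.2 : ℕ) % H = H - 1} := by
          refine Nat.card_le_card_of_injective
            (fun x => ⟨x.1, by_contra fun hc => x.2 (h1 x.1 hc)⟩) ?_
          intro x y hxy
          have hxy' := Subtype.ext_iff.mp hxy
          exact Subtype.ext hxy'
      _ = ∑ s ∈ range (n ^ d * H), ∑ _ω : Fin d → Fin n → (Fin m → ZMod 2),
            (if s % H = H - 1 then 1 else 0) := by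
          rw [← sum_V' (fun _ s => if s % H = H - 1 then 1 else 0),
            Nat.card_eq_fintype_card, Fintype.card_subtype, ← sum_filter, sum_const, smul_eq_mul,
            mul_one]
      _ = (2 ^ m) ^ (d * n) * ((range (n ^ d * H)).filter (fun s => s % H = H - 1)).card := by
          simp only [sum_const, card_univ, smul_eq_mul]
          rw [← mul_sum, ← sum_filter, sum_const, smul_eq_mul, mul_one]
          congr 1
          simp only [Fintype.card_pi, ZMod.card, prod_const, card_univ, Fintype.card_fin]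
          rw [← pow_mul]
          ring
      _ ≤ _ := by
          refine Nat.mul_le_mul_left _ ?_
          have h3 := count_le 1 H (n ^ d) (H - 1) one_pos
          simp only [Nat.div_one, one_mul] at h3
          rwa [mul_comm H] at h3
  rw [card_V']
  calc _ ≤ H * ((2 ^ m) ^ (d * n) * n ^ d) := Nat.mul_le_mul_left _ h2
    _ = _ := by ring

lemma corr (hLet : S_Let) (hd : 0 < d) (hH : 0 < H) (f f' : V → ℂ) (h0 : ∑ x, f x = 0)
    (j : ℕ) (hj : j + H ≤ n ^ d * H) :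
    cor (rot (Fin d → Fin n → (Fin m → ZMod 2)) (n ^ d * H))
      (fun x => f (pp hn e σ H x)) (fun x => f' (pp hn e σ H x)) j =
      (if j ≤ H then 1 - (j : ℂ) / H else 0) * cor σ f f' j := by
  have hcV : Fintype.card V = 2 ^ m := by
    rw [← Fintype.card_congr e]; simp
  unfold cor
  simp_rw [pp_pow]
  unfold pp
  rw [sum_V' (fun ω s => f (PP hn e σ H ω (s + j)) * starRingEnd ℂ (f' (PP hn e σ H ω s)))]
  rw [card_V', hcV]
  set C : ℂ := ∑ x, f ((σ ^ j) x) * starRingEnd ℂ (f' x) with hC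
  have h1 : (2 ^ m : ℂ) * ∑ s ∈ range (n ^ d * H), ∑ ω : Fin d → Fin n → (Fin m → ZMod 2),
      f (PP hn e σ H ω (s + j)) * starRingEnd ℂ (f' (PP hn e σ H ω s)) =
      (2 ^ m : ℂ) ^ (d * n) * C * ((n ^ d : ℕ) * (H * (if j ≤ H then 1 - (j : ℂ) / H else 0))) := by
    rw [mul_sum]
    have h2 : ∀ s ∈ range (n ^ d * H), (2 ^ m : ℂ) * ∑ ω : Fin d → Fin n → (Fin m → ZMod 2),
        f (PP hn e σ H ω (s + j)) * starRingEnd ℂ (f' (PP hn e σ H ω s)) =
        (2 ^ m : ℂ) ^ (d * n) * C * (fun t => if t + j < H then (1 : ℂ) else 0) (s % H) := by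
      intro s _
      rw [sum_two hn e σ hLet hd hH f (fun x => starRingEnd ℂ (f' x)) h0 j s hj]
      beta_reduce
      split_ifs
      · rw [hC]; ring
      · ring
    have h6 := sum_mod H (n ^ d) (fun t => if t + j < H then (1 : ℂ) else 0)
    rw [sum_congr rfl h2, ← mul_sum, mul_comm (n ^ d) H, h6, sum_lt H j hH]
  have h2m : (2 ^ m : ℂ) ≠ 0 := pow_ne_zero _ two_ne_zero
  have hn' : ((n : ℂ)) ≠ 0 := by exact_mod_cast hn.ne'
  have hH' : ((H : ℂ)) ≠ 0 := by exact_mod_cast hH.ne'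
  have h3 : ∑ s ∈ range (n ^ d * H), ∑ ω : Fin d → Fin n → (Fin m → ZMod 2),
      f (PP hn e σ H ω (s + j)) * starRingEnd ℂ (f' (PP hn e σ H ω s)) =
      (2 ^ m : ℂ) ^ (d * n) * C * ((n ^ d : ℕ) * (H * (if j ≤ H then 1 - (j : ℂ) / H else 0))) / 2 ^ m := by
    rw [← h1]; field_simp
  rw [h3]
  have h4 : ((2 ^ m : ℂ) ^ (d * n)) ≠ 0 := pow_ne_zero _ h2m
  have h5 : ((n : ℂ) ^ d) ≠ 0 := pow_ne_zero _ hn'
  push_cast
  generalize (if j ≤ H then 1 - (j : ℂ) / H else 0) = z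
  field_simp

/-! ### the operator inequality -/

/-- the Hilbert space of functions on `V' × (ℤ/2)^r` -/
abbrev HS (m r d n H : ℕ) : Type :=
  EuclideanSpace ℂ (((Fin d → Fin n → (Fin m → ZMod 2)) × Fin (n ^ d * H)) × (Fin r → ZMod 2))

/-- the Koopman operator -/
noncomputable def UU (m r d n H : ℕ) [NeZero (n ^ d * H)] : HS m r d n H ≃ₗᵢ[ℂ] HS m r d n H :=
  LinearIsometryEquiv.piLpCongrLeft 2 ℂ ℂ
    ((rot (Fin d → Fin n → (Fin m → ZMod 2)) (n ^ d * H)).prodCongr (Equiv.refl _)).symm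

lemma UU_apply (g : HS m r d n H) (x : (Fin d → Fin n → (Fin m → ZMod 2)) × Fin (n ^ d * H))
    (v : Fin r → ZMod 2) : UU m r d n H g (x, v) = g (rot _ _ x, v) := rfl

lemma UU_pow (j : ℕ) (g : HS m r d n H)
    (x : (Fin d → Fin n → (Fin m → ZMod 2)) × Fin (n ^ d * H)) (v : Fin r → ZMod 2) :
    ((⇑(UU m r d n H))^[j] g) (x, v) = g ((rot _ _ ^ j) x, v) := by
  induction j generalizing x with
  | zero => rfl
  | succ j ih =>
    rw [Function.iterate_succ_apply', UU_apply, ih, pow_succ, Equiv.Perm.mul_apply]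

omit [NeZero (n ^ d * H)] in
lemma sum_apply' {ι : Type} (s : Finset ι) (c : ι → ℂ) (f : ι → HS m r d n H)
    (z : ((Fin d → Fin n → (Fin m → ZMod 2)) × Fin (n ^ d * H)) × (Fin r → ZMod 2)) :
    (∑ i ∈ s, c i • f i) z = ∑ i ∈ s, c i * f i z := by
  classical
  induction s using Finset.induction_on with
  | empty => simp
  | insert a s ha ih =>
    rw [Finset.sum_insert ha, Finset.sum_insert ha, PiLp.add_apply, ih, PiLp.smul_apply,
      smul_eq_mul]

omit [Fintype V] in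
lemma q3 (hGau : S_Gau) (hH : 0 < H) (F : V → (Fin r → ZMod 2) → ℂ)
    (hF1 : ∀ i v, ‖F i v‖ ≤ 1) (hF0 : ∀ i, ∑ v, F i v = 0) (q : Polynomial ℂ) (M L : ℕ)
    (hq : ∀ (f : Fin d → HS m r d n H) (δ : ℝ),
      (∀ i : Fin d, ‖(⇑(UU m r d n H))^[H * n ^ (i : ℕ)] (f i) - f i‖ ≤ δ) →
      ‖(∑ k ∈ q.support, q.coeff k • (⇑(UU m r d n H))^[k] (∑ i, f i)) -
        (⇑(UU m r d n H))^[M] (∑ i, f i)‖ ≤ d * L * δ) :
    ∑ x : (Fin d → Fin n → (Fin m → ZMod 2)) × Fin (n ^ d * H), ∑ v : Fin r → ZMod 2,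
      ‖(∑ k ∈ q.support, q.coeff k * F (pp hn e σ H ((rot _ _ ^ k) x))
        (v + gg hn lb H ((rot _ _ ^ k) x))) -
      F (pp hn e σ H ((rot _ _ ^ M) x)) (v + gg hn lb H ((rot _ _ ^ M) x))‖ ^ 2 ≤
      (d * L) ^ 2 * ((Fintype.card ((Fin d → Fin n → (Fin m → ZMod 2)) × Fin (n ^ d * H)) : ℝ) *
        2 ^ r * 4 ^ (r + 1) / n) := by
  classical
  have hn' : (0 : ℝ) < n := by exact_mod_cast hn
  -- the decomposition
  choose G hG1 hG2 hG3 using fun t : ℕ => hGau m r d n lb (fun a v => F ((σ ^ t) (e a)) v)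
    (fun a v => hF1 _ v) (fun a => hF0 _)
  let f : Fin d → HS m r d n H := fun i => WithLp.toLp 2 fun z =>
    G ((z.1.2 : ℕ) % H) i z.1.1 (kap d hn ((z.1.2 : ℕ) / H)) z.2
  have hf : ∀ i z, f i z = G ((z.1.2 : ℕ) % H) i z.1.1 (kap d hn ((z.1.2 : ℕ) / H)) z.2 :=
    fun i z => rfl
  have hsum : ∀ x v, (∑ i, f i) (x, v) = F (pp hn e σ H x) (v + gg hn lb H x) := by
    intro x v
    have h1 := sum_apply' (m := m) (r := r) (d := d) (n := n) (H := H) Finset.univ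
      (fun _ => (1 : ℂ)) f (x, v)
    simp only [one_smul, one_mul] at h1
    rw [h1]
    simp_rw [hf]
    exact (hG3 _ _ _ _).symm
  set δ2 : ℝ := (Fintype.card ((Fin d → Fin n → (Fin m → ZMod 2)) × Fin (n ^ d * H)) : ℝ) *
        2 ^ r * 4 ^ (r + 1) / n with hδ2
  have hδ2nn : 0 ≤ δ2 := by positivity
  have hstep : ∀ i : Fin d, ‖(⇑(UU m r d n H))^[H * n ^ (i : ℕ)] (f i) - f i‖ ≤ √δ2 := by
    intro i
    apply Real.le_sqrt_of_sq_le
    rw [EuclideanSpace.norm_sq_eq]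
    have h2 : ∀ z : ((Fin d → Fin n → (Fin m → ZMod 2)) × Fin (n ^ d * H)) × (Fin r → ZMod 2),
        ‖((⇑(UU m r d n H))^[H * n ^ (i : ℕ)] (f i) - f i) z‖ ^ 2 ≤
        (fun (_ : Fin d → Fin n → (Fin m → ZMod 2)) (s : ℕ) =>
          if s / (H * n ^ (i : ℕ)) % n = n - 1 then (4 : ℝ) ^ (r + 1) else 0) z.1.1 z.1.2 := by
      rintro ⟨⟨ω, s⟩, v⟩
      beta_reduce
      rw [PiLp.sub_apply, UU_pow, hf, hf]
      have e1 := (rot_pow (H * n ^ (i : ℕ)) (ω, s)).1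
      have e2 := (rot_pow (H * n ^ (i : ℕ)) (ω, s)).2
      dsimp only at e1 e2 ⊢
      rw [e1, e2, mod_mod_eq, div_mod_eq]
      have e3 : ((s : ℕ) + H * n ^ (i : ℕ)) % H = (s : ℕ) % H := Nat.add_mul_mod_self_left _ _ _
      have e4 : ((s : ℕ) + H * n ^ (i : ℕ)) / H = (s : ℕ) / H + n ^ (i : ℕ) :=
        Nat.add_mul_div_left _ _ hH
      rw [e3, e4]
      by_cases hc : (s : ℕ) / (H * n ^ (i : ℕ)) % n = n - 1
      · rw [if_pos hc]
        have h3 := hG2 ((s : ℕ) % H) i ω (kap d hn ((s : ℕ) / H + n ^ (i : ℕ))) v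
        have h4 := hG2 ((s : ℕ) % H) i ω (kap d hn ((s : ℕ) / H)) v
        have h5 := norm_sub_le (G ((s : ℕ) % H) i ω (kap d hn ((s : ℕ) / H + n ^ (i : ℕ))) v)
          (G ((s : ℕ) % H) i ω (kap d hn ((s : ℕ) / H)) v)
        have h6 : ‖G ((s : ℕ) % H) i ω (kap d hn ((s : ℕ) / H + n ^ (i : ℕ))) v -
            G ((s : ℕ) % H) i ω (kap d hn ((s : ℕ) / H)) v‖ ≤ 2 * 2 ^ r := by linarith
        calc _ ≤ (2 * 2 ^ r : ℝ) ^ 2 := by gcongr
          _ = 4 ^ (r + 1) := by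
            rw [mul_pow, ← pow_mul, mul_comm r 2, pow_mul, pow_succ]; norm_num; ring
      · rw [if_neg hc]
        have h3 : G ((s : ℕ) % H) i ω (kap d hn ((s : ℕ) / H + n ^ (i : ℕ))) v =
            G ((s : ℕ) % H) i ω (kap d hn ((s : ℕ) / H)) v := by
          apply hG1
          intro i' hi'
          refine kap_add d hn _ i ?_ i' hi'
          rwa [Nat.div_div_eq_div_mul]
        rw [h3, sub_self]; simp
    refine (Finset.sum_le_sum fun z _ => h2 z).trans ?_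
    rw [Fintype.sum_prod_type_right]
    dsimp only
    rw [Finset.sum_const, card_univ, nsmul_eq_mul]
    have h7 := sum_V' (m := m) (d := d) (n := n) (H := H) (fun _ s =>
      if s / (H * n ^ (i : ℕ)) % n = n - 1 then (4 : ℝ) ^ (r + 1) else 0)
    rw [h7]
    simp only [sum_const, card_univ, smul_eq_mul, nsmul_eq_mul]
    rw [← mul_sum, ← sum_filter, sum_const, nsmul_eq_mul]
    have h8 : ((range (n ^ d * H)).filter (fun s => s / (H * n ^ (i : ℕ)) % n = n - 1)).card * n ≤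
        n ^ d * H := by
      have h9 := count_le (H * n ^ (i : ℕ)) n (n ^ (d - 1 - i)) (n - 1)
        (Nat.mul_pos hH (Nat.pow_pos hn))
      have h10 : H * n ^ (i : ℕ) * n * n ^ (d - 1 - i) = n ^ d * H := by
        have h11 : n ^ d = n ^ (i : ℕ) * n * n ^ (d - 1 - i) := by
          rw [← pow_succ, ← pow_add]
          exact congrArg (fun z => n ^ z) (by omega)
        rw [h11]; ring
      rw [h10] at h9
      calc _ ≤ (H * n ^ (i : ℕ) * n ^ (d - 1 - i)) * n := Nat.mul_le_mul_right _ h9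
        _ = n ^ d * H := by rw [← h10]; ring
    have h8' : (((range (n ^ d * H)).filter
        (fun s => s / (H * n ^ (i : ℕ)) % n = n - 1)).card : ℝ) ≤ (n ^ d * H : ℕ) / n := by
      rw [le_div_iff₀ hn']
      exact_mod_cast h8
    have h12 : (Fintype.card (Fin r → ZMod 2) : ℝ) = 2 ^ r := by simp
    rw [hδ2, h12, Fintype.card_prod, Fintype.card_fin]
    push_cast at h8' ⊢
    calc _ ≤ (2 : ℝ) ^ r * ((Fintype.card (Fin d → Fin n → (Fin m → ZMod 2)) : ℝ) *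
          ((n ^ d * H) / n * 4 ^ (r + 1))) := by gcongr
      _ = _ := by ring
  have hfin := hq f (√δ2) hstep
  have h13 : ∑ x : (Fin d → Fin n → (Fin m → ZMod 2)) × Fin (n ^ d * H), ∑ v : Fin r → ZMod 2,
      ‖(∑ k ∈ q.support, q.coeff k * F (pp hn e σ H ((rot _ _ ^ k) x))
        (v + gg hn lb H ((rot _ _ ^ k) x))) -
      F (pp hn e σ H ((rot _ _ ^ M) x)) (v + gg hn lb H ((rot _ _ ^ M) x))‖ ^ 2 =
      ‖(∑ k ∈ q.support, q.coeff k • (⇑(UU m r d n H))^[k] (∑ i, f i)) -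
        (⇑(UU m r d n H))^[M] (∑ i, f i)‖ ^ 2 := by
    rw [EuclideanSpace.norm_sq_eq]
    symm
    rw [Fintype.sum_prod_type]
    refine Finset.sum_congr rfl fun x _ => Finset.sum_congr rfl fun v _ => ?_
    congr 2
    rw [PiLp.sub_apply, sum_apply', UU_pow, hsum]
    congr 1
    refine Finset.sum_congr rfl fun k _ => ?_
    rw [UU_pow, hsum]
  rw [h13]
  calc _ ≤ (d * L * √δ2) ^ 2 := by gcongr
    _ = _ := by rw [mul_pow, Real.sq_sqrt hδ2nn]

end

lemma geo (d n : ℕ) (hd : 0 < d) (hn : 2 ≤ n) : n * ∑ i : Fin d, n ^ (i : ℕ) ≤ 2 * n ^ d := by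
  rw [Fin.sum_univ_eq_sum_range (fun i => n ^ i) d]
  obtain ⟨d, rfl⟩ := Nat.exists_eq_add_of_lt hd
  induction d with
  | zero => simp; omega
  | succ d ih =>
    rw [Finset.sum_range_succ, mul_add]
    have h1 := ih (by omega)
    have h2 : n ^ (0 + (d + 1) + 1) = n * n ^ (0 + d + 1) := by rw [← pow_succ']; congr 1
    have h3 : n ^ (0 + (d + 1)) = n ^ (0 + d + 1) := rfl
    have h4 : ∑ x ∈ range (0 + (d + 1)), n ^ x = ∑ x ∈ range (0 + d + 1), n ^ x := rfl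
    rw [h2, h3, h4]
    have h5 : 2 * n ^ (0 + d + 1) ≤ n * n ^ (0 + d + 1) := Nat.mul_le_mul_right _ hn
    linarith

theorem main : S_Let → S_Gau → S_Pol → S_NextA := by
  intro hLet hGau hPol m h V _ e σ hσ r N ε hr hε
  have hne : Nonempty (Fin r × (Fin m → ZMod 2)) := ⟨(⟨0, hr⟩, 0)⟩
  obtain ⟨d, hd, ⟨lb⟩⟩ : ∃ d : ℕ, 0 < d ∧ Nonempty (Fin d ≃ Fin r × (Fin m → ZMod 2)) :=
    ⟨_, Fintype.card_pos, ⟨(Fintype.equivFin _).symm⟩⟩
  obtain ⟨L, hL0, hL⟩ : ∃ L : ℕ, 0 < L ∧ (4 : ℝ) ^ d ≤ ε ^ 2 * L := by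
    obtain ⟨L, hL⟩ := exists_nat_ge ((4 : ℝ) ^ d / ε ^ 2 + 1)
    have h1 : (4 : ℝ) ^ d / ε ^ 2 ≤ L := by linarith
    refine ⟨L, ?_, ?_⟩
    · have : (0 : ℝ) < L := by
        have : 0 ≤ (4 : ℝ) ^ d / ε ^ 2 := by positivity
        linarith
      exact_mod_cast this
    · rw [div_le_iff₀ (by positivity)] at h1
      linarith
  obtain ⟨w, hw1, hwN, hw2, hw3⟩ : ∃ w : ℕ, 1 ≤ w ∧ N ≤ 2 ^ w ∧
      (1 + 2 ^ d : ℝ) ^ 2 * 6 * L ≤ ε ^ 2 * ((2 ^ w : ℕ) : ℝ) ∧
      ((d : ℝ) * L) ^ 2 * 4 ^ (r + 1) ≤ ε ^ 2 * ((2 ^ w : ℕ) : ℝ) := by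
    obtain ⟨w, hw⟩ := exists_nat_ge (((1 + 2 ^ d : ℝ) ^ 2 * 6 * L) / ε ^ 2 +
      (((d : ℝ) * L) ^ 2 * 4 ^ (r + 1)) / ε ^ 2 + N + 1)
    have a1 : 0 ≤ ((1 + 2 ^ d : ℝ) ^ 2 * 6 * L) / ε ^ 2 := by positivity
    have a2 : 0 ≤ (((d : ℝ) * L) ^ 2 * 4 ^ (r + 1)) / ε ^ 2 := by positivity
    have a3 : (w : ℝ) ≤ ((2 ^ w : ℕ) : ℝ) := by exact_mod_cast (Nat.lt_two_pow_self).le
    have a4 : (0 : ℝ) ≤ N := Nat.cast_nonneg N
    refine ⟨w, ?_, ?_, ?_, ?_⟩
    · have : (1 : ℝ) ≤ w := by linarith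
      exact_mod_cast this
    · have : (N : ℝ) ≤ ((2 ^ w : ℕ) : ℝ) := by linarith
      exact_mod_cast this
    · have : ((1 + 2 ^ d : ℝ) ^ 2 * 6 * L) / ε ^ 2 ≤ ((2 ^ w : ℕ) : ℝ) := by linarith
      rw [div_le_iff₀ (by positivity)] at this
      linarith
    · have : (((d : ℝ) * L) ^ 2 * 4 ^ (r + 1)) / ε ^ 2 ≤ ((2 ^ w : ℕ) : ℝ) := by linarith
      rw [div_le_iff₀ (by positivity)] at this
      linarith
  have hn2 : 2 ≤ 2 ^ w := by
    calc 2 = 2 ^ 1 := rfl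
      _ ≤ 2 ^ w := Nat.pow_le_pow_right (by norm_num) hw1
  have hHp : 0 < 2 ^ h := by positivity
  obtain ⟨n, hn_def⟩ : ∃ n : ℕ, n = 2 ^ w := ⟨_, rfl⟩
  obtain ⟨H, hH_def⟩ : ∃ H : ℕ, H = 2 ^ h := ⟨_, rfl⟩
  rw [← hn_def] at hwN hw2 hw3 hn2
  rw [← hH_def] at hHp hσ ⊢
  have hn : 0 < n := by omega
  have hn' : (0 : ℝ) < n := by exact_mod_cast hn
  have hK : n ^ d * H = 2 ^ (w * d + h) := by rw [hn_def, hH_def, pow_add, pow_mul]
  have hKpos : 0 < n ^ d * H := Nat.mul_pos (Nat.pow_pos hn) hHp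
  have : NeZero (n ^ d * H) := ⟨hKpos.ne'⟩
  obtain ⟨q, M, p1, p2, p3, p4, p5⟩ := hPol d L (fun i => H * n ^ (i : ℕ)) hL0
    (fun i => Nat.mul_pos hHp (Nat.pow_pos hn))
  have hdn : 1 ≤ d * n := Nat.mul_pos hd hn
  have hsumA : n * ∑ i : Fin d, H * n ^ (i : ℕ) ≤ 2 * (n ^ d * H) := by
    rw [← Finset.mul_sum]
    have := geo d n hd hn2
    calc n * (H * ∑ i : Fin d, n ^ (i : ℕ)) = H * (n * ∑ i : Fin d, n ^ (i : ℕ)) := by ring
      _ ≤ H * (2 * n ^ d) := Nat.mul_le_mul_left _ this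
      _ = _ := by ring
  refine ⟨(Fin d → Fin n → (Fin m → ZMod 2)) × Fin (n ^ d * H), inferInstance,
    m * (d * n) + (w * d + h), w * d + h, rot _ _, pp hn e σ H, fun x => (x.2 : ℕ) % H,
    gg hn lb H, q, M, ?_, ?_, ?_, ?_⟩
  · rw [card_V', hK, ← pow_mul, ← pow_add]
  · have h1 : 1 ≤ w * d := Nat.mul_pos hw1 hd
    have h2 : m * 1 ≤ m * (d * n) := Nat.mul_le_mul_left m hdn
    omega
  · rw [← hK]
    calc N ≤ n := hwN
      _ = n ^ 1 * 1 := by ring
      _ ≤ n ^ d * H := Nat.mul_le_mul (Nat.pow_le_pow_right hn hd) hHp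
  · rw [← hK]
    refine ⟨?_, ?_, ?_, ?_, ?_, ?_, ?_, ?_⟩
    · intro i
      exact fib hn e σ hLet hd i
    · exact per
    · exact time hn e σ lb hHp
    · intro f f' h0 _ j hj
      exact corr hn e σ hLet hd hHp f f' h0 j hj
    · refine p2.trans ?_
      rw [div_le_iff₀ (by exact_mod_cast hL0)]
      exact hL
    · have b1 : (q.natDegree : ℝ) + M ≤ 3 * L * (∑ i : Fin d, H * n ^ (i : ℕ) : ℕ) := by
        have : q.natDegree + M ≤ 3 * L * ∑ i : Fin d, H * n ^ (i : ℕ) := by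
          calc q.natDegree + M ≤ 2 * L * ∑ i : Fin d, H * n ^ (i : ℕ) +
                L * ∑ i : Fin d, H * n ^ (i : ℕ) := Nat.add_le_add p3 p4
            _ = _ := by ring
        exact_mod_cast this
      have b2 : ((∑ i : Fin d, H * n ^ (i : ℕ) : ℕ) : ℝ) ≤ 2 * ((n ^ d * H : ℕ) : ℝ) / n := by
        rw [le_div_iff₀ hn', mul_comm]
        exact_mod_cast hsumA
      have b3 : 0 ≤ ∑ n ∈ q.support, ‖q.coeff n‖ := Finset.sum_nonneg fun _ _ => norm_nonneg _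
      calc (1 + ∑ n ∈ q.support, ‖q.coeff n‖) ^ 2 * ((q.natDegree : ℝ) + M)
          ≤ (1 + 2 ^ d) ^ 2 * (3 * L * (2 * ((n ^ d * H : ℕ) : ℝ) / n)) := by
            gcongr
            exact b1.trans (by gcongr)
        _ = ((1 + 2 ^ d : ℝ) ^ 2 * 6 * L) * ((n ^ d * H : ℕ) : ℝ) / n := by ring
        _ ≤ (ε ^ 2 * (n : ℝ)) * ((n ^ d * H : ℕ) : ℝ) / n := by gcongr
        _ = _ := by field_simp
    · intro F hF1 hF0
      refine (q3 hn e σ lb hGau hHp F hF1 hF0 q M L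
        (fun f δ hfδ => (p5 (HS m r d n H) (UU m r d n H)).2 f δ hfδ)).trans ?_
      have c1 : (((d : ℝ) * L) ^ 2) * ((Fintype.card ((Fin d → Fin n → (Fin m → ZMod 2)) ×
          Fin (n ^ d * H)) : ℝ) * 2 ^ r * 4 ^ (r + 1) / n) =
          (((d : ℝ) * L) ^ 2 * 4 ^ (r + 1)) * ((Fintype.card ((Fin d → Fin n → (Fin m → ZMod 2)) ×
          Fin (n ^ d * H)) : ℝ) * 2 ^ r) / n := by ring
      rw [c1]
      calc _ ≤ (ε ^ 2 * (n : ℝ)) * ((Fintype.card ((Fin d → Fin n → (Fin m → ZMod 2)) ×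
          Fin (n ^ d * H)) : ℝ) * 2 ^ r) / n := by gcongr
        _ = _ := by field_simp
    · intro E _ _ U x
      exact (p5 E U).1 x

end Pool.Agent.W338.NGNEXTA
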