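import Pool.Agent.W338.CTCOVCONN

/-! # Lower bound for the covering probability of the killed walk -/

namespace Pool.Agent.W338.CTCOVGE

open Pool.Agent.W823.CT

theorem main (h1 : S_NEU) (h2 : S_CYC) : S_COVGE := Pool.Agent.W338.CTCOVCONN.covge h1 h2

end Pool.Agent.W338.CTCOVGE
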