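import Pool.Agent.W894.HT.MLib
import Pool.Agent.W800.HMQstep
import Pool.Agent.W346.HTR.Rest
import Pool.Agent.W303.HMWgraph
import Pool.Agent.W790.HMWclean
import Pool.Agent.W179.HMWgad
import Pool.Agent.W975.HMWtog
import Pool.Agent.W22.HMGW
import Pool.Agent.W696.HMWpth

/-!
Project HT/HM (owner helper894), part HN-MPT.
-/

set_option autoImplicit false

namespace Pool.Agent.W338.HNMpt

open Pool.Agent.W894.HT

theorem wgraph : S_WGRAPH :=
  Pool.Agent.W303.HMWgraph.main (Pool.Agent.W790.HMWclean.main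
    (Pool.Agent.W179.HMWgad.main Pool.Agent.W975.HMWtog.main) Pool.Agent.W22.HMGW.main)
    (Pool.Agent.W696.HMWpth.main Pool.Agent.W22.HMGW.main) Pool.Agent.W22.HMGW.main

theorem beq_unique {α : Type} (b1 b2 : BEq α) (h1 : @LawfulBEq α b1) (h2 : @LawfulBEq α b2) :
    b1 = b2 := by
  obtain ⟨f⟩ := b1
  obtain ⟨g⟩ := b2
  congr
  funext x y
  rw [Bool.eq_iff_iff]
  have e1 : f x y = true ↔ x = y := @beq_iff_eq α ⟨f⟩ h1 x y
  have e2 : g x y = true ↔ x = y := @beq_iff_eq α ⟨g⟩ h2 x y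
  rw [e1, e2]

theorem idxOf_inst {α : Type} (b1 b2 : BEq α) (h1 : @LawfulBEq α b1) (h2 : @LawfulBEq α b2)
    (a : α) (l : List α) : @List.idxOf α b1 a l = @List.idxOf α b2 a l := by
  rw [beq_unique b1 b2 h1 h2]

theorem len_Ix (m : ℕ) : (Ix m).length = m := by
  induction m with
  | zero => rfl
  | succ m ih =>
    show (Ix m).length + 1 = m + 1
    rw [ih]

theorem len_dum (n : ℕ) : (dum n).length = n := by
  unfold dum
  rw [List.length_map, List.length_range]

theorem len_W0 (p : ℕ) (S : Stg) (τ : ℕ → Bool) :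
    (W0 p S τ).length = (restS S ++ dum (Dn p S τ)).length + 2 := rfl

theorem len_El (p : ℕ) (S : Stg) (τ : ℕ → Bool) : (El p S τ).length = (sE S τ).length := by
  unfold El
  rw [List.length_map]

theorem mm_eq {p : ℕ} (hp : 2 ≤ p) (S : Stg) (τ : ℕ → Bool) :
    mm p S τ = (p - 1) * ((restS S).length + Lp p * (sE S τ).length) := by
  unfold mm
  rw [len_W0, len_El, List.length_append, len_dum]
  unfold Dn
  obtain ⟨q, rfl⟩ : ∃ q, p = q + 2 := ⟨p - 2, by omega⟩
  rw [show q + 2 - 2 = q by omega, show q + 2 - 1 = q + 1 by omega, Nat.add_sub_cancel]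
  ring

theorem fiok {p : ℕ} (hp : 3 ≤ p) : FiOk (bsz p) (Fp p) := by
  have hb : 2 < bsz p ∧ (p = 3 → bsz p = 6) := by
    unfold bsz
    split_ifs with h
    · exact ⟨by omega, fun _ => rfl⟩
    · exact ⟨by omega, fun h' => absurd h' h⟩
  constructor
  · intro i j
    unfold Fp
    rw [Bool.eq_iff_iff]
    simp only [Bool.or_eq_true, Bool.and_eq_true, decide_eq_true_eq]
    tauto
  · intro i j h
    unfold Fp at h
    simp only [Bool.or_eq_true, Bool.and_eq_true, decide_eq_true_eq] at h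
    obtain ⟨h1, h2⟩ := hb
    rcases h with (h | h) | ⟨h3, h | h⟩
    · omega
    · omega
    · have := h2 h3
      omega
    · have := h2 h3
      omega

theorem sub_irr (n0 L : ℕ) (El : List (ℕ × ℕ × Bool)) (i : ℕ) : subR n0 L El i i = false := by
  unfold subR
  by_cases h : n0 ≤ i
  · rcases El[(i - n0) / L]? with _ | ⟨u, w, neg⟩
    · simp
    · simp only [if_neg (show ¬ i < n0 by omega)]
      simp
  · simp [h]

theorem sub_symm (n0 L : ℕ) (El : List (ℕ × ℕ × Bool)) (i j : ℕ) :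
    subF n0 L El i j = subF n0 L El j i := by
  unfold subF
  rw [Bool.or_comm]

theorem sub_irr' (n0 L : ℕ) (El : List (ℕ × ℕ × Bool)) (i : ℕ) : subF n0 L El i i = false := by
  unfold subF
  rw [sub_irr]
  rfl

theorem idx (h2 : S_IDX) (h3 : S_WOK) (p : ℕ) (S : Stg) (τ : ℕ → Bool) (hS : S ≠ [])
    (A : Type) [CommRing A] :
    PR (A := A) 1 (gw (El p S τ)) 1 0 (Ix ((W0 p S τ).length - 2)) =
    PR (A := A) 1 (gw (sE S τ)) (hub 0) (hub S.length) (restS S ++ dum (Dn p S τ)) := by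
  obtain ⟨w1, w2, -, -, -⟩ := h3 p S τ hS
  have h := h2 A Nm (sE S τ) (hub 0) (hub S.length) (restS S ++ dum (Dn p S τ)) w1 w2
  rw [← h, len_W0, Nat.add_sub_cancel]
  have e : El p S τ = (sE S τ).map fun t =>
      (@List.idxOf Nm instBEqOfDecidableEq t.1
        (hub S.length :: hub 0 :: (restS S ++ dum (Dn p S τ))),
        @List.idxOf Nm instBEqOfDecidableEq t.2.1
        (hub S.length :: hub 0 :: (restS S ++ dum (Dn p S τ))), t.2.2) := by
    unfold El
    refine List.map_congr_left fun t _ => ?_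
    rw [idxOf_inst _ instBEqOfDecidableEq inferInstance inferInstance t.1,
      idxOf_inst _ instBEqOfDecidableEq inferInstance inferInstance t.2.1]
    rfl
  rw [e]

theorem val (h1 : S_CAST) (h2 : S_IDX) (h3 : S_WOK) (p : ℕ) (S : Stg) (τ : ℕ → Bool)
    (hS : S ≠ []) (A : Type) [CommRing A] :
    PR (A := A) 1 (gw (El p S τ)) 1 0 (Ix ((W0 p S τ).length - 2)) = (snc S τ : A) := by
  obtain ⟨-, -, -, -, w5⟩ := h3 p S τ hS
  obtain ⟨-, -, -, -, s5⟩ := Pool.Agent.W800.HMQstep.mainS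
  obtain ⟨r1, r2⟩ := Pool.Agent.W346.HTR.main S hS
  have hx : hub 0 ∉ dum (Dn p S τ) := by
    intro h
    unfold dum at h
    obtain ⟨i, -, hi⟩ := List.mem_map.1 h
    have := congrArg Prod.fst hi
    exact absurd this (by show ¬ (5 : ℕ) = 0; omega)
  rw [idx h2 h3 p S τ hS A, s5 Nm A 1 (gw (sE S τ)) (hub 0) (hub S.length) (restS S)
    (dum (Dn p S τ)) hx (w5 A), ← h1 A Nm (sE S τ) (hub 0) (hub S.length) (restS S),
    wgraph S τ (restS S) hS r1 r2]

theorem main (h1 : S_CAST) (h2 : S_IDX) (h3 : S_WOK) (h4 : S_TG) (h5 : S_LOC) (h6 : S_SUB) :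
    S_MPT := by
  intro p hpf hp S τ hS
  have hp3 : 3 ≤ p := by
    have := hpf.1.two_le
    omega
  obtain ⟨ha, hb, hN⟩ := h5 p hp
  obtain ⟨t1, t2, t3⟩ := h4 (bsz p) (Fp p)
    (subF (W0 p S τ).length (Lp p) (El p S τ)) (mm p S τ) (ZMod p) _ _
    (by unfold bsz; split_ifs <;> omega) (fiok hp3) (sub_symm _ _ _) (sub_irr' _ _ _) rfl rfl
    (by rw [hN, mul_zero])
  generalize AS (A := ZMod p) (phi (Fp p)) (List.range' 2 (bsz p - 1)) = a at ha t2 t3
  generalize AS (A := ZMod p) (phi (Fp p)) (List.range' 2 (bsz p - 2)) = b at hb t2 t3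
  obtain ⟨s1, s2, -, -, -⟩ := Pool.Agent.W800.HMQstep.mainS
  obtain ⟨-, -, w3, w4, -⟩ := h3 p S τ hS
  have ham : a ^ (mm p S τ) = 1 := by
    rw [mm_eq (by omega), pow_mul, ZMod.pow_card_sub_one_eq_one ha, one_pow]
  have hρ : b / a ≠ 0 := div_ne_zero hb ha
  have hρL : (b / a) ^ (Lp p + 1) = 1 := by
    have : Lp p + 1 = (p - 1) * 2 := by
      unfold Lp
      omega
    rw [this, pow_mul, ZMod.pow_card_sub_one_eq_one hρ, one_pow]
  have key : PQ a b (phi (subF (W0 p S τ).length (Lp p) (El p S τ))) 1 0 (Ix (mm p S τ)) =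
      (b / a) ^ (Lp p) * (snc S τ : ZMod p) := by
    rw [s2 ℕ (ZMod p) a b _ 1 0 _ ha, len_Ix, ham, one_mul]
    have h7 := h6 (ZMod p) (b / a) (W0 p S τ).length (Lp p) (El p S τ)
      (by rw [len_W0]; omega) (by unfold Lp; omega) (by unfold Lp; omega) w3 w4
    unfold mm
    rw [h7, s1 ℕ (ZMod p) (b / a) (Lp p) (gw (El p S τ)) 1 0 _ hρL, val h1 h2 h3 p S τ hS]
  refine ⟨t1, (b / a) ^ (Lp p), pow_ne_zero _ hρ, ?_, ?_⟩
  · rw [← key, ← ham]
    exact t2
  · rw [← key]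
    exact t3

end Pool.Agent.W338.HNMpt
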