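import Pool.Agent.W338.LVFcmp

/-! # The Busemann density is a volume functional -/

set_option autoImplicit false

open MeasureTheory Set Filter Topology Asymptotics
open scoped ENNReal NNReal ContDiff
open Pool.Agent.W674.LVR Pool.Agent.W674.LVF Pool.Agent.W338.LVFcmp

namespace Pool.Agent.W338.LVFbus

lemma omega_pos (k : ℕ) : omega k ≠ 0 := by
  unfold omega
  exact (Metric.measure_ball_pos _ _ one_pos).ne'

lemma omega_top (k : ℕ) : omega k ≠ ⊤ := by
  unfold omega
  exact measure_ball_lt_top.ne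

lemma vol_pos {k : ℕ} (N : Seminorm ℝ (Rn k)) : 0 < volume {w : Rn k | N w ≤ 1} := by
  obtain ⟨C, hC, h⟩ := seminorm_le N
  refine lt_of_lt_of_le (Metric.measure_ball_pos volume (0 : Rn k)
    (by positivity : (0 : ℝ) < 1 / (C + 1))) (measure_mono ?_)
  intro w hw
  rw [mem_ball_zero_iff] at hw
  have h2 := h w
  have h3 : C * ‖w‖ ≤ (C + 1) * (1 / (C + 1)) := by
    apply mul_le_mul (by linarith) hw.le (norm_nonneg _) (by positivity)
  rw [mul_one_div_cancel (by positivity)] at h3
  exact h2.trans h3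

lemma vol_lt_top {k : ℕ} (N : Seminorm ℝ (Rn k)) (hN : IsNrm N) :
    volume {w : Rn k | N w ≤ 1} < ⊤ := by
  obtain ⟨c, hc, h⟩ := norm_le N hN
  refine lt_of_le_of_lt (measure_mono ?_)
    (measure_closedBall_lt_top (μ := volume) (x := (0 : Rn k)) (r := 1 / c))
  intro w hw
  rw [mem_closedBall_zero_iff, le_div_iff₀ hc, mul_comm]
  exact (h w).trans hw

lemma strict_aux {k : ℕ} (N N' : Seminorm ℝ (Rn k)) (w : Rn k) (hw : N w < N' w) :
    0 < volume ({w : Rn k | N w ≤ 1} \ {w : Rn k | N' w ≤ 1}) := by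
  obtain ⟨t, ht1, ht2⟩ := exists_between hw
  have ht : 0 < t := (apply_nonneg N w).trans_lt ht1
  have ho : IsOpen ({w : Rn k | N w < 1} ∩ {w : Rn k | 1 < N' w}) :=
    (isOpen_lt (seminorm_cont N) continuous_const).inter
      (isOpen_lt continuous_const (seminorm_cont N'))
  have hne : ({w : Rn k | N w < 1} ∩ {w : Rn k | 1 < N' w}).Nonempty := by
    refine ⟨t⁻¹ • w, ?_, ?_⟩
    · change N (t⁻¹ • w) < 1
      rw [map_smul_eq_mul, Real.norm_of_nonneg (by positivity), inv_mul_lt_iff₀ ht, mul_one]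
      exact ht1
    · change 1 < N' (t⁻¹ • w)
      rw [map_smul_eq_mul, Real.norm_of_nonneg (by positivity), lt_inv_mul_iff₀ ht, mul_one]
      exact ht2
  refine lt_of_lt_of_le (ho.measure_pos volume hne) (measure_mono ?_)
  rintro x ⟨hx1, hx2⟩
  have hx1' : N x < 1 := hx1
  have hx2' : 1 < N' x := hx2
  refine ⟨hx1'.le, fun (hx3 : N' x ≤ 1) => ?_⟩
  linarith

theorem main : Pool.Agent.W674.LVF.S_bus := by
  intro k
  refine ⟨?_, ?_, ?_, ?_, ?_, ?_⟩
  · intro N L hN hL
    unfold busemann
    have h1 : {w : Rn k | (N.comp L) w ≤ 1} = L ⁻¹' {w | N w ≤ 1} := rfl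
    rw [h1, Measure.addHaar_preimage_linearMap _ hL, abs_inv]
    have hpos : 0 < |LinearMap.det L| := abs_pos.mpr hL
    rw [ENNReal.ofReal_inv_of_pos hpos, ENNReal.div_eq_inv_mul, ENNReal.div_eq_inv_mul,
      ENNReal.mul_inv (Or.inr (vol_lt_top N hN).ne) (Or.inr (vol_pos N).ne'), inv_inv, mul_assoc]
  · intro N N' h
    unfold busemann
    exact ENNReal.div_le_div_left (measure_mono fun w hw => (h w).trans hw) _
  · intro N hN
    unfold busemann
    exact ENNReal.div_pos (omega_pos k) (vol_lt_top N hN).ne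
  · intro N
    unfold busemann
    exact ENNReal.div_lt_top (omega_top k) (vol_pos N).ne'
  · intro N N' hN hN' hle hJ
    unfold busemann at hJ
    have h1 : volume {w : Rn k | N w ≤ 1} ≤ volume {w : Rn k | N' w ≤ 1} := by
      rwa [ENNReal.div_eq_inv_mul, ENNReal.div_eq_inv_mul,
        ENNReal.mul_le_mul_iff_left (omega_pos k) (omega_top k), ENNReal.inv_le_inv] at hJ
    by_contra hne
    obtain ⟨w, hw⟩ : ∃ w, N w < N' w := by
      by_contra hcon
      push Not at hcon
      exact hne (le_antisymm hle hcon)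
    have h2 := strict_aux N N' w hw
    have hm : MeasurableSet {w : Rn k | N' w ≤ 1} :=
      (isClosed_le (seminorm_cont N') continuous_const).measurableSet
    have hsub : {w : Rn k | N' w ≤ 1} ⊆ {w : Rn k | N w ≤ 1} := fun w hw => (hle w).trans hw
    rw [measure_sdiff hsub hm.nullMeasurableSet (vol_lt_top N' hN').ne] at h2
    rw [tsub_eq_zero_of_le h1] at h2
    exact lt_irrefl _ h2
  · intro N hN
    unfold busemann
    refine Measurable.const_div ?_ _
    have hmeas : MeasurableSet {q : Rn k × Rn k | N q.1 q.2 ≤ 1} := by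
      have h1 : Measurable (Function.uncurry fun w u => N u w) :=
        measurable_uncurry_of_continuous_of_measurable
          (u := fun (w : Rn k) (u : Rn k) => N u w) (fun u => seminorm_cont (N u)) hN
      have h2 : Measurable fun q : Rn k × Rn k => N q.1 q.2 := h1.comp measurable_swap
      exact h2 measurableSet_Iic
    exact measurable_measure_prodMk_left hmeas

end Pool.Agent.W338.LVFbus
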