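import Pool.Agent.W674.LVF.Stm

/-! # Any two volume functionals are comparable (Auerbach bases) -/

set_option autoImplicit false

open MeasureTheory Set Filter Topology Asymptotics
open scoped ENNReal NNReal ContDiff
open Pool.Agent.W674.LVR Pool.Agent.W674.LVF

namespace Pool.Agent.W338.LVFcmp

/-- the sup norm as a seminorm -/
noncomputable def sup (k : ℕ) : Seminorm ℝ (Rn k) := normSeminorm ℝ (Rn k)

lemma sup_apply {k : ℕ} (w : Rn k) : sup k w = ‖w‖ := rfl

lemma sup_isNrm (k : ℕ) : IsNrm (sup k) := fun w h => by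
  rw [sup_apply] at h; exact norm_eq_zero.mp h

lemma seminorm_sum {k : ℕ} {ι : Type} (N : Seminorm ℝ (Rn k)) (s : Finset ι) (g : ι → Rn k) :
    N (∑ i ∈ s, g i) ≤ ∑ i ∈ s, N (g i) :=
  Finset.le_sum_of_subadditive N (map_zero N).le (map_add_le_add N) s g

lemma seminorm_le {k : ℕ} (N : Seminorm ℝ (Rn k)) :
    ∃ C : ℝ, 0 ≤ C ∧ ∀ w, N w ≤ C * ‖w‖ := by
  refine ⟨∑ i, N (Pi.single i 1), Finset.sum_nonneg fun i _ => apply_nonneg N _, fun w => ?_⟩
  have h1 : w = ∑ i, w i • (Pi.single i (1 : ℝ) : Rn k) := by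
    simpa using (pi_eq_sum_univ' w)
  calc N w = N (∑ i, w i • (Pi.single i (1 : ℝ) : Rn k)) := by rw [← h1]
    _ ≤ ∑ i, N (w i • (Pi.single i (1 : ℝ) : Rn k)) := seminorm_sum N _ _
    _ = ∑ i, |w i| * N (Pi.single i (1 : ℝ) : Rn k) := by
        refine Finset.sum_congr rfl fun i _ => ?_
        rw [map_smul_eq_mul, Real.norm_eq_abs]
    _ ≤ ∑ i, ‖w‖ * N (Pi.single i (1 : ℝ) : Rn k) := by
        refine Finset.sum_le_sum fun i _ => mul_le_mul_of_nonneg_right ?_ (apply_nonneg N _)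
        rw [← Real.norm_eq_abs]; exact norm_le_pi_norm w i
    _ = (∑ i, N (Pi.single i (1 : ℝ) : Rn k)) * ‖w‖ := by
        rw [← Finset.mul_sum, mul_comm]

lemma seminorm_cont {k : ℕ} (N : Seminorm ℝ (Rn k)) : Continuous N := by
  obtain ⟨C, hC, h⟩ := seminorm_le N
  have hl : LipschitzWith ⟨C, hC⟩ N := by
    refine LipschitzWith.of_dist_le_mul fun x y => ?_
    rw [Real.dist_eq, dist_eq_norm]
    refine le_trans ?_ (h (x - y))
    rw [abs_sub_le_iff]
    constructor
    · have := map_add_le_add N (x - y) y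
      rw [sub_add_cancel] at this; linarith
    · have := map_add_le_add N (y - x) x
      rw [sub_add_cancel] at this
      have h2 : N (y - x) = N (x - y) := map_sub_rev N y x
      linarith
  exact hl.continuous

lemma norm_le {k : ℕ} (N : Seminorm ℝ (Rn k)) (hN : IsNrm N) :
    ∃ c : ℝ, 0 < c ∧ ∀ w, c * ‖w‖ ≤ N w := by
  rcases isEmpty_or_nonempty (Fin k) with hk | hk
  · refine ⟨1, one_pos, fun w => ?_⟩
    have : w = 0 := Subsingleton.elim _ _
    rw [this]; simp
  · have hs : IsCompact (Metric.sphere (0 : Rn k) 1) := isCompact_sphere _ _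
    have hne : (Metric.sphere (0 : Rn k) 1).Nonempty := by
      refine ⟨fun _ => 1, ?_⟩
      simp
    obtain ⟨x, hx, hmin⟩ := hs.exists_isMinOn hne (seminorm_cont N).continuousOn
    refine ⟨N x, ?_, fun w => ?_⟩
    · rcases (apply_nonneg N x).lt_or_eq with h | h
      · exact h
      · exfalso
        have := hN x h.symm
        rw [this] at hx; simp at hx
    · by_cases hw : w = 0
      · rw [hw]; simp
      · have hw' : 0 < ‖w‖ := norm_pos_iff.mpr hw
        have h2 : N x ≤ N (‖w‖⁻¹ • w) := by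
          apply hmin
          simp [norm_smul, hw'.ne']
        rw [map_smul_eq_mul, norm_inv, norm_norm] at h2
        calc N x * ‖w‖ ≤ (‖w‖⁻¹ * N w) * ‖w‖ := by gcongr
          _ = N w := by field_simp

/-- Auerbach basis -/
lemma auerbach {k : ℕ} (N : Seminorm ℝ (Rn k)) (hN : IsNrm N) :
    ∃ L : Rn k →ₗ[ℝ] Rn k, LinearMap.det L ≠ 0 ∧ (∀ w, ‖L w‖ ≤ N w) ∧
      ∀ w, N w ≤ (k + 1) * ‖L w‖ := by
  obtain ⟨c, hc, hcN⟩ := norm_le N hN
  obtain ⟨C, hC, hCN⟩ := seminorm_le N
  have hcont := seminorm_cont N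
  let K : Set (Fin k → Fin k → ℝ) := {M | ∀ i, N (M i) ≤ 1}
  have hKc : IsCompact K := by
    have hb : K ⊆ Metric.closedBall (0 : Fin k → Fin k → ℝ) (1 / c) := by
      intro M hM
      rw [mem_closedBall_zero_iff, pi_norm_le_iff_of_nonneg (by positivity)]
      intro i
      rw [le_div_iff₀ hc, mul_comm]
      exact (hcN (M i)).trans (hM i)
    have hcl : IsClosed K := by
      have : K = ⋂ i, {M : Fin k → Fin k → ℝ | N (M i) ≤ 1} := by
        ext M; simp [K]
      rw [this]
      refine isClosed_iInter fun i => isClosed_le (hcont.comp (continuous_apply i)) continuous_const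
    exact (isCompact_closedBall (0 : Fin k → Fin k → ℝ) (1 / c)).of_isClosed_subset hcl hb
  have hKne : K.Nonempty := ⟨0, fun i => by
    have : N ((0 : Fin k → Fin k → ℝ) i) = 0 := map_zero N
    rw [this]; exact zero_le_one⟩
  have hdc : Continuous fun M : Fin k → Fin k → ℝ => |(Matrix.of M).det| :=
    (Continuous.matrix_det continuous_id).abs
  obtain ⟨M0, hM, hmax⟩ := hKc.exists_isMaxOn hKne hdc.continuousOn
  let M : Matrix (Fin k) (Fin k) ℝ := Matrix.of M0
  have hdet : M.det ≠ 0 := by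
    have hmem : (show Fin k → Fin k → ℝ from (C + 1)⁻¹ • (1 : Matrix (Fin k) (Fin k) ℝ)) ∈ K := by
      intro i
      have h1 : ‖((C + 1)⁻¹ • (1 : Matrix (Fin k) (Fin k) ℝ)) i‖ ≤ (C + 1)⁻¹ := by
        rw [pi_norm_le_iff_of_nonneg (by positivity)]
        intro j
        rw [Matrix.smul_apply, Matrix.one_apply, smul_eq_mul, norm_mul]
        rw [Real.norm_of_nonneg (by positivity : (0 : ℝ) ≤ (C + 1)⁻¹)]
        split_ifs <;> simp
        positivity
      calc N _ ≤ C * ‖((C + 1)⁻¹ • (1 : Matrix (Fin k) (Fin k) ℝ)) i‖ := hCN _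
        _ ≤ C * (C + 1)⁻¹ := by gcongr
        _ ≤ 1 := by rw [← div_eq_mul_inv, div_le_one (by positivity)]; linarith
    have h2 := hmax hmem
    change |((C + 1)⁻¹ • (1 : Matrix (Fin k) (Fin k) ℝ)).det| ≤ |M.det| at h2
    rw [Matrix.det_smul, Matrix.det_one, mul_one] at h2
    intro h0
    rw [h0, abs_zero] at h2
    have : 0 < |(C + 1)⁻¹ ^ Fintype.card (Fin k)| := by positivity
    linarith
  let A : Matrix (Fin k) (Fin k) ℝ := M.transpose
  have hA : A.det = M.det := Matrix.det_transpose M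
  have hAu : IsUnit A.det := by rw [hA]; exact isUnit_iff_ne_zero.mpr hdet
  have hbound : ∀ w : Rn k, N w ≤ 1 → ‖A⁻¹.mulVec w‖ ≤ 1 := by
    intro w hw
    rw [pi_norm_le_iff_of_nonneg zero_le_one]
    intro j
    have h1 : A.det * (A⁻¹.mulVec w) j = (M.updateRow j w).det := by
      have h2 : (Matrix.cramer A w) j = (M.updateRow j w).det := by
        rw [Matrix.cramer_transpose_apply]
      rw [← h2, Matrix.cramer_eq_adjugate_mulVec, Matrix.inv_def, Matrix.smul_mulVec]
      simp only [Pi.smul_apply, smul_eq_mul]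
      rw [← mul_assoc, Ring.mul_inverse_cancel _ hAu, one_mul]
    have h3 : (show Fin k → Fin k → ℝ from M.updateRow j w) ∈ K := by
      intro i
      change N ((M.updateRow j w) i) ≤ 1
      by_cases hij : i = j
      · have e : (M.updateRow j w) i = w := by
          rw [hij]; exact Matrix.updateRow_self
        rw [e]; exact hw
      · have e : (M.updateRow j w) i = M0 i := by
          exact Matrix.updateRow_ne hij
        rw [e]; exact hM i
    have h4 := hmax h3
    change |(M.updateRow j w).det| ≤ |M.det| at h4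
    rw [← h1, hA, abs_mul] at h4
    have h5 : 0 < |M.det| := abs_pos.mpr hdet
    rw [Real.norm_eq_abs]
    by_contra hcon
    push Not at hcon
    nlinarith
  refine ⟨Matrix.toLin' A⁻¹, ?_, ?_, ?_⟩
  · rw [LinearMap.det_toLin']
    rw [Matrix.det_nonsing_inv]
    exact (IsUnit.ringInverse hAu).ne_zero
  · intro w
    rw [Matrix.toLin'_apply]
    by_cases hw : w = 0
    · rw [hw]; simp
    · have hpos : 0 < N w := (apply_nonneg N w).lt_of_ne fun h => hw (hN w h.symm)
      have h1 := hbound ((N w)⁻¹ • w) (by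
        rw [map_smul_eq_mul, norm_inv, Real.norm_of_nonneg hpos.le, inv_mul_cancel₀ hpos.ne'])
      rw [Matrix.mulVec_smul, norm_smul, norm_inv, Real.norm_of_nonneg hpos.le] at h1
      rw [inv_mul_le_iff₀ hpos, mul_one] at h1
      exact h1
  · intro w
    rw [Matrix.toLin'_apply]
    have h1 : w = ∑ j, (A⁻¹.mulVec w) j • M j := by
      have h2 : A.mulVec (A⁻¹.mulVec w) = w := by
        rw [Matrix.mulVec_mulVec, Matrix.mul_nonsing_inv _ hAu, Matrix.one_mulVec]
      conv_lhs => rw [← h2]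
      ext i
      simp only [Matrix.mulVec, dotProduct, Finset.sum_apply, Pi.smul_apply, smul_eq_mul, A,
        Matrix.transpose_apply]
      refine Finset.sum_congr rfl fun j _ => ?_
      ring
    calc N w = N (∑ j, (A⁻¹.mulVec w) j • M j) := by rw [← h1]
      _ ≤ ∑ j, N ((A⁻¹.mulVec w) j • M j) := seminorm_sum N _ _
      _ ≤ ∑ j : Fin k, ‖A⁻¹.mulVec w‖ := by
          refine Finset.sum_le_sum fun j _ => ?_
          rw [map_smul_eq_mul]
          calc ‖(A⁻¹.mulVec w) j‖ * N (M j) ≤ ‖(A⁻¹.mulVec w) j‖ * 1 := by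
                gcongr; exact hM j
            _ ≤ ‖A⁻¹.mulVec w‖ := by rw [mul_one]; exact norm_le_pi_norm _ j
      _ = k * ‖A⁻¹.mulVec w‖ := by simp
      _ ≤ (k + 1) * ‖A⁻¹.mulVec w‖ := by
          have := norm_nonneg (A⁻¹.mulVec w); nlinarith

theorem main : Pool.Agent.W674.LVF.S_cmp := by
  intro k J₁ J₂ h₁ h₂
  have hS : IsNrm (sup k) := sup_isNrm k
  have hp1 := h₁.pos _ hS
  have ht1 := h₁.lt_top (sup k)
  have ht2 := h₂.lt_top (sup k)
  set a := J₁ (sup k) with ha
  set b := J₂ (sup k) with hb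
  have hCt : ENNReal.ofReal (((k : ℝ) + 1) ^ k) * b / a ≠ ⊤ :=
    ENNReal.div_ne_top (ENNReal.mul_ne_top ENNReal.ofReal_ne_top ht2.ne) hp1.ne'
  refine ⟨(ENNReal.ofReal (((k : ℝ) + 1) ^ k) * b / a).toNNReal, fun N hN => ?_⟩
  rw [ENNReal.coe_toNNReal hCt]
  obtain ⟨L, hL, hlo, hhi⟩ := auerbach N hN
  have e1 : ENNReal.ofReal |LinearMap.det L| * a ≤ J₁ N := by
    rw [ha, ← h₁.comp _ L hS hL]
    exact h₁.mono _ _ fun w => hlo w
  have hL2 : LinearMap.det (((k : ℝ) + 1) • L) = ((k : ℝ) + 1) ^ k * LinearMap.det L := by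
    rw [LinearMap.det_smul]; simp
  have hL3 : LinearMap.det (((k : ℝ) + 1) • L) ≠ 0 := by
    rw [hL2]; exact mul_ne_zero (by positivity) hL
  have e2 : J₂ N ≤ ENNReal.ofReal |LinearMap.det (((k : ℝ) + 1) • L)| * b := by
    rw [hb, ← h₂.comp _ _ hS hL3]
    refine h₂.mono _ _ fun w => ?_
    have : (sup k).comp (((k : ℝ) + 1) • L) w = ((k : ℝ) + 1) * ‖L w‖ := by
      rw [Seminorm.comp_apply, sup_apply, LinearMap.smul_apply, norm_smul,
        Real.norm_of_nonneg (by positivity)]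
    rw [this]; exact hhi w
  rw [hL2, abs_mul, ENNReal.ofReal_mul (abs_nonneg _), abs_of_nonneg (by positivity)] at e2
  calc J₂ N ≤ ENNReal.ofReal (((k : ℝ) + 1) ^ k) * ENNReal.ofReal |LinearMap.det L| * b := e2
    _ = (ENNReal.ofReal (((k : ℝ) + 1) ^ k) * b / a) * (ENNReal.ofReal |LinearMap.det L| * a) := by
        rw [ENNReal.div_eq_inv_mul]
        have : a⁻¹ * a = 1 := ENNReal.inv_mul_cancel hp1.ne' ht1.ne
        calc ENNReal.ofReal (((k : ℝ) + 1) ^ k) * ENNReal.ofReal |LinearMap.det L| * b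
            = ENNReal.ofReal (((k : ℝ) + 1) ^ k) * ENNReal.ofReal |LinearMap.det L| * b
              * (a⁻¹ * a) := by rw [this, mul_one]
          _ = _ := by ring
    _ ≤ _ := by gcongr

end Pool.Agent.W338.LVFcmp
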