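import Pool.Agent.W338.LVFbus

/-! # The Holmes-Thompson density is a volume functional -/

set_option autoImplicit false

open MeasureTheory Set Filter Topology Asymptotics
open scoped ENNReal NNReal ContDiff
open Pool.Agent.W674.LVR Pool.Agent.W674.LVF Pool.Agent.W338.LVFcmp Pool.Agent.W338.LVFbus

namespace Pool.Agent.W338.LVFht

lemma mem_polar_iff {k : ℕ} (N : Seminorm ℝ (Rn k)) (y : Rn k) :
    y ∈ polar N ↔ ∀ w, |∑ i, y i * w i| ≤ N w := by
  constructor
  · intro hy w
    have hs : ∀ t : ℝ, 0 < t → t * N w ≤ 1 → t * |∑ i, y i * w i| ≤ 1 := by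
      intro t ht h
      have h1 := hy (t • w) (by
        rw [map_smul_eq_mul, Real.norm_of_nonneg ht.le]; exact h)
      have h2 : ∑ i, y i * (t • w) i = t * ∑ i, y i * w i := by
        rw [Finset.mul_sum]
        refine Finset.sum_congr rfl fun i _ => ?_
        simp only [Pi.smul_apply, smul_eq_mul]; ring
      rw [h2, abs_mul, abs_of_pos ht] at h1
      exact h1
    rcases (apply_nonneg N w).lt_or_eq with h | h
    · have := hs (N w)⁻¹ (by positivity) (by rw [inv_mul_cancel₀ h.ne'])
      rwa [inv_mul_le_iff₀ h, mul_one] at this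
    · rw [← h]
      by_contra hcon
      push Not at hcon
      have := hs (2 / |∑ i, y i * w i|) (by positivity) (by rw [← h]; simp)
      rw [div_mul_cancel₀ _ hcon.ne'] at this
      linarith
  · intro h w hw
    exact (h w).trans hw

lemma polar_bounded {k : ℕ} (N : Seminorm ℝ (Rn k)) :
    ∃ C : ℝ, polar N ⊆ Metric.closedBall 0 C := by
  obtain ⟨C, hC, h⟩ := seminorm_le N
  refine ⟨C, fun y hy => ?_⟩
  rw [mem_polar_iff] at hy
  rw [mem_closedBall_zero_iff, pi_norm_le_iff_of_nonneg hC]
  intro i
  have h1 := hy (Pi.single i 1)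
  have h2 : ∑ j, y j * (Pi.single i (1 : ℝ) : Rn k) j = y i := by
    rw [Finset.sum_eq_single i]
    · simp
    · intro j _ hj; simp [hj]
    · intro h; exact absurd (Finset.mem_univ i) h
  rw [h2] at h1
  rw [Real.norm_eq_abs]
  refine h1.trans ((h _).trans ?_)
  have h3 : ‖(Pi.single i (1 : ℝ) : Rn k)‖ ≤ 1 := by
    rw [pi_norm_le_iff_of_nonneg zero_le_one]
    intro j
    by_cases hj : j = i
    · subst hj; simp
    · simp [hj]
  nlinarith

lemma vol_polar_lt_top {k : ℕ} (N : Seminorm ℝ (Rn k)) : volume (polar N) < ⊤ := by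
  obtain ⟨C, h⟩ := polar_bounded N
  exact lt_of_le_of_lt (measure_mono h) measure_closedBall_lt_top

lemma ball_subset_polar {k : ℕ} (N : Seminorm ℝ (Rn k)) (hN : IsNrm N) :
    ∃ r : ℝ, 0 < r ∧ Metric.ball (0 : Rn k) r ⊆ polar N := by
  obtain ⟨c, hc, h⟩ := norm_le N hN
  refine ⟨c / (k + 1), by positivity, fun y hy => ?_⟩
  rw [mem_ball_zero_iff, lt_div_iff₀ (by positivity)] at hy
  rw [mem_polar_iff]
  intro w
  calc |∑ i, y i * w i| ≤ ∑ i, |y i * w i| := Finset.abs_sum_le_sum_abs _ _
    _ ≤ ∑ i : Fin k, ‖y‖ * ‖w‖ := by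
        refine Finset.sum_le_sum fun i _ => ?_
        rw [abs_mul]
        have h1 : |y i| ≤ ‖y‖ := norm_le_pi_norm y i
        have h2 : |w i| ≤ ‖w‖ := norm_le_pi_norm w i
        gcongr
    _ = k * (‖y‖ * ‖w‖) := by simp
    _ ≤ (‖y‖ * (k + 1)) * ‖w‖ := by
        have := norm_nonneg y; have := norm_nonneg w
        nlinarith [mul_nonneg (norm_nonneg y) (norm_nonneg w)]
    _ ≤ c * ‖w‖ := by gcongr
    _ ≤ N w := h w

lemma polar_anti {k : ℕ} {N N' : Seminorm ℝ (Rn k)} (h : N ≤ N') : polar N ⊆ polar N' := by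
  intro y hy
  rw [mem_polar_iff] at hy ⊢
  exact fun w => (hy w).trans (h w)

lemma dot_cont {k : ℕ} (w : Rn k) : Continuous fun y : Rn k => ∑ i, y i * w i := by
  fun_prop

lemma polar_closed {k : ℕ} (N : Seminorm ℝ (Rn k)) : IsClosed (polar N) := by
  have : polar N = ⋂ w, {y | |∑ i, y i * w i| ≤ N w} := by
    ext y; rw [mem_polar_iff]; simp
  rw [this]
  exact isClosed_iInter fun w => isClosed_le (dot_cont w).abs continuous_const

lemma polar_convex {k : ℕ} (N : Seminorm ℝ (Rn k)) : Convex ℝ (polar N) := by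
  intro x hx y hy a b ha hb hab
  rw [mem_polar_iff] at hx hy ⊢
  intro w
  have h1 : ∑ i, (a • x + b • y) i * w i = a * ∑ i, x i * w i + b * ∑ i, y i * w i := by
    rw [Finset.mul_sum, Finset.mul_sum, ← Finset.sum_add_distrib]
    refine Finset.sum_congr rfl fun i _ => ?_
    simp only [Pi.smul_apply, Pi.add_apply, smul_eq_mul]; ring
  rw [h1]
  calc |a * ∑ i, x i * w i + b * ∑ i, y i * w i|
      ≤ |a * ∑ i, x i * w i| + |b * ∑ i, y i * w i| := abs_add_le _ _
    _ = a * |∑ i, x i * w i| + b * |∑ i, y i * w i| := by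
        rw [abs_mul, abs_mul, abs_of_nonneg ha, abs_of_nonneg hb]
    _ ≤ a * N w + b * N w := by
        gcongr
        · exact hx w
        · exact hy w
    _ = N w := by rw [← add_mul, hab, one_mul]

/-- Hahn-Banach -/
lemma exists_polar {k : ℕ} (N : Seminorm ℝ (Rn k)) (w : Rn k) (hw : w ≠ 0) :
    ∃ y ∈ polar N, ∑ i, y i * w i = N w := by
  obtain ⟨g, hg1, hg2⟩ := exists_extension_of_le_sublinear
    (LinearPMap.mkSpanSingleton w (N w) hw) N
    (fun c hc x => by rw [map_smul_eq_mul, Real.norm_of_nonneg hc.le])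
    (fun x y => map_add_le_add N x y)
    (by
      rintro ⟨x, hx⟩
      obtain ⟨c, rfl⟩ := Submodule.mem_span_singleton.mp hx
      have e1 := LinearPMap.mkSpanSingleton'_apply (σ := RingHom.id ℝ) w (N w)
        (fun c hc => by
          rcases smul_eq_zero.mp hc with h | h
          · rw [h]; simp
          · exact absurd h hw) c hx
      refine le_trans (le_of_eq e1) ?_
      change c * N w ≤ N (c • w)
      rw [map_smul_eq_mul]
      exact mul_le_mul_of_nonneg_right (le_abs_self c) (apply_nonneg N w))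
  have hg3 : ∀ x, |g x| ≤ N x := N.abs_le_of_le hg2
  have hg4 : ∀ x : Rn k, g x = ∑ i, g (Pi.single i 1) * x i := by
    intro x
    have h1 : x = ∑ i, x i • (Pi.single i (1 : ℝ) : Rn k) := by
      simpa using (pi_eq_sum_univ' x)
    conv_lhs => rw [h1]
    rw [map_sum]
    refine Finset.sum_congr rfl fun i _ => ?_
    rw [map_smul, smul_eq_mul, mul_comm]
  refine ⟨fun i => g (Pi.single i 1), ?_, ?_⟩
  · rw [mem_polar_iff]
    intro x
    rw [← hg4]; exact hg3 x
  · rw [← hg4]
    have h5 := hg1 ⟨w, Submodule.mem_span_singleton_self w⟩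
    have h6 := LinearPMap.mkSpanSingleton_apply ℝ ℝ (σ := RingHom.id ℝ) hw (N w)
    exact h5.trans h6

lemma polar_comp {k : ℕ} (N : Seminorm ℝ (Rn k)) (L : Rn k →ₗ[ℝ] Rn k)
    (hL : LinearMap.det L ≠ 0) :
    ∃ M : Rn k →ₗ[ℝ] Rn k, LinearMap.det M = (LinearMap.det L)⁻¹ ∧
      polar (N.comp L) = M ⁻¹' polar N := by
  let A : Matrix (Fin k) (Fin k) ℝ := LinearMap.toMatrix' L
  have hA : A.det = LinearMap.det L := LinearMap.det_toMatrix' L
  have hAu : IsUnit A.det := by rw [hA]; exact isUnit_iff_ne_zero.mpr hL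
  refine ⟨Matrix.toLin' (A⁻¹).transpose, ?_, ?_⟩
  · rw [LinearMap.det_toLin', Matrix.det_transpose, Matrix.det_nonsing_inv, Ring.inverse_eq_inv', hA]
  · have key : ∀ (y z : Rn k), ∑ i, (Matrix.toLin' (A⁻¹).transpose y) i * (L z) i
        = ∑ i, y i * z i := by
      intro y z
      have h1 : L z = A.mulVec z := (LinearMap.toMatrix'_mulVec L z).symm
      rw [h1, Matrix.toLin'_apply]
      change dotProduct _ _ = dotProduct _ _
      rw [Matrix.mulVec_transpose, ← Matrix.dotProduct_mulVec, Matrix.mulVec_mulVec,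
        Matrix.nonsing_inv_mul _ hAu, Matrix.one_mulVec]
    have hsurj : Function.Surjective L := by
      have := (L.equivOfDetNeZero hL).surjective
      exact this
    ext y
    rw [mem_preimage, mem_polar_iff, mem_polar_iff]
    constructor
    · intro h z
      obtain ⟨x, rfl⟩ := hsurj z
      rw [key]; exact h x
    · intro h w
      have := h (L w)
      rw [key] at this; exact this

theorem main : Pool.Agent.W674.LVF.S_ht := by
  intro k
  refine ⟨?_, ?_, ?_, ?_, ?_, ?_⟩
  · intro N L hN hL
    unfold holmesThompson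
    obtain ⟨M, hM, h⟩ := polar_comp N L hL
    have hM0 : LinearMap.det M ≠ 0 := by rw [hM]; exact inv_ne_zero hL
    rw [h, Measure.addHaar_preimage_linearMap _ hM0, hM, inv_inv, mul_div_assoc]
  · intro N N' h
    unfold holmesThompson
    exact ENNReal.div_le_div_right (measure_mono (polar_anti h)) _
  · intro N hN
    unfold holmesThompson
    obtain ⟨r, hr, h⟩ := ball_subset_polar N hN
    have h1 : 0 < volume (polar N) :=
      lt_of_lt_of_le (Metric.measure_ball_pos volume (0 : Rn k) hr) (measure_mono h)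
    exact ENNReal.div_pos h1.ne' (omega_top k)
  · intro N
    unfold holmesThompson
    exact ENNReal.div_lt_top (vol_polar_lt_top N).ne (omega_pos k)
  · intro N N' hN hN' hle hJ
    unfold holmesThompson at hJ
    have h1 : volume (polar N') ≤ volume (polar N) := by
      rwa [ENNReal.div_eq_inv_mul, ENNReal.div_eq_inv_mul,
        ENNReal.mul_le_mul_iff_right (ENNReal.inv_ne_zero.mpr (omega_top k))
          (ENNReal.inv_ne_top.mpr (omega_pos k))] at hJ
    by_contra hne
    obtain ⟨w, hw⟩ : ∃ w, N w < N' w := by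
      by_contra hcon
      push Not at hcon
      exact hne (le_antisymm hle hcon)
    have hw0 : w ≠ 0 := by
      rintro rfl
      rw [map_zero, map_zero] at hw
      exact lt_irrefl _ hw
    obtain ⟨y, hy, hyw⟩ := exists_polar N' w hw0
    obtain ⟨r, hr, hball⟩ := ball_subset_polar N' hN'
    have hint : (interior (polar N')).Nonempty :=
      ⟨0, interior_mono hball (by rw [Metric.isOpen_ball.interior_eq]; exact Metric.mem_ball_self hr)⟩
    have hcl := (polar_convex N').closure_interior_eq_closure_of_nonempty_interior hint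
    have hyc : y ∈ closure (interior (polar N')) := by
      rw [hcl]; exact subset_closure hy
    have hO : IsOpen {z : Rn k | N w < ∑ i, z i * w i} := isOpen_lt continuous_const (dot_cont w)
    have hyO : y ∈ {z : Rn k | N w < ∑ i, z i * w i} := by
      change N w < ∑ i, y i * w i
      rw [hyw]; exact hw
    obtain ⟨z, hz1, hz2⟩ := mem_closure_iff.mp hyc _ hO hyO
    have hpos : 0 < volume ({z : Rn k | N w < ∑ i, z i * w i} ∩ interior (polar N')) :=
      (hO.inter isOpen_interior).measure_pos volume ⟨z, hz1, hz2⟩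
    have hsub : {z : Rn k | N w < ∑ i, z i * w i} ∩ interior (polar N') ⊆
        polar N' \ polar N := by
      rintro x ⟨hx1, hx2⟩
      refine ⟨interior_subset hx2, fun hx3 => ?_⟩
      rw [mem_polar_iff] at hx3
      have h4 := hx3 w
      have h5 : N w < ∑ i, x i * w i := hx1
      have h6 := le_abs_self (∑ i, x i * w i)
      linarith
    have h7 := lt_of_lt_of_le hpos (measure_mono hsub)
    rw [measure_sdiff (polar_anti hle) (polar_closed N).measurableSet.nullMeasurableSet
      (vol_polar_lt_top N).ne, tsub_eq_zero_of_le h1] at h7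
    exact lt_irrefl _ h7
  · intro N hN
    unfold holmesThompson
    refine Measurable.div_const ?_ _
    have hmeas : MeasurableSet {q : Rn k × Rn k | q.2 ∈ polar (N q.1)} := by
      have h1 : {q : Rn k × Rn k | q.2 ∈ polar (N q.1)} =
          ⋂ n : ℕ, {q : Rn k × Rn k | |∑ i, q.2 i * (TopologicalSpace.denseSeq (Rn k) n) i| ≤
            N q.1 (TopologicalSpace.denseSeq (Rn k) n)} := by
        ext q
        simp only [mem_iInter]
        change q.2 ∈ polar (N q.1) ↔ ∀ n : ℕ,
          |∑ i, q.2 i * (TopologicalSpace.denseSeq (Rn k) n) i| ≤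
            N q.1 (TopologicalSpace.denseSeq (Rn k) n)
        rw [mem_polar_iff]
        constructor
        · intro h n; exact h _
        · intro h
          have hcl : IsClosed {w : Rn k | |∑ i, q.2 i * w i| ≤ N q.1 w} := by
            refine isClosed_le ?_ (seminorm_cont _)
            fun_prop
          have hall := hcl.closure_subset_iff.mpr
            (show range (TopologicalSpace.denseSeq (Rn k)) ⊆ _ from by
              rintro _ ⟨n, rfl⟩; exact h n)
          rw [(TopologicalSpace.denseRange_denseSeq (Rn k)).closure_eq] at hall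
          exact fun w => hall (mem_univ w)
      rw [h1]
      refine MeasurableSet.iInter fun n => measurableSet_le ?_ ?_
      · refine Measurable.abs ?_
        fun_prop
      · exact (hN _).comp measurable_fst
    exact measurable_measure_prodMk_left hmeas

end Pool.Agent.W338.LVFht
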