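import Pool.Agent.W674.LVF.Stm

/-! # Positive lower density implies support -/

set_option autoImplicit false

open MeasureTheory Set Filter Topology Asymptotics
open scoped ENNReal NNReal ContDiff
open Pool.Agent.W674.LVR Pool.Agent.W674.LVF

namespace Pool.Agent.W338.LVFsupp

lemma BLip.mul {E : Type} [PseudoMetricSpace E] {f g : E → ℝ} (hf : BLip f) (hg : BLip g) :
    BLip (f * g) := by
  obtain ⟨⟨K, hK⟩, C, hC⟩ := hf
  obtain ⟨⟨K', hK'⟩, C', hC'⟩ := hg
  refine ⟨⟨Real.toNNReal (|C|) * K' + Real.toNNReal |C'| * K,
    LipschitzWith.of_dist_le_mul fun x y => ?_⟩, |C| * |C'|, fun x => ?_⟩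
  · have h1 := hK.dist_le_mul x y
    have h2 := hK'.dist_le_mul x y
    rw [Real.dist_eq] at h1 h2 ⊢
    have e1 : (f * g) x - (f * g) y = f x * (g x - g y) + g y * (f x - f y) := by
      simp only [Pi.mul_apply]; ring
    rw [e1]
    have h3 : |f x| ≤ |C| := (hC x).trans (le_abs_self C)
    have h4 : |g y| ≤ |C'| := (hC' y).trans (le_abs_self C')
    push_cast
    rw [Real.coe_toNNReal _ (abs_nonneg _), Real.coe_toNNReal _ (abs_nonneg _)]
    calc |f x * (g x - g y) + g y * (f x - f y)| ≤ |f x * (g x - g y)| + |g y * (f x - f y)| :=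
          abs_add_le _ _
      _ = |f x| * |g x - g y| + |g y| * |f x - f y| := by rw [abs_mul, abs_mul]
      _ ≤ |C| * (K' * dist x y) + |C'| * (K * dist x y) := by gcongr
      _ = (|C| * K' + |C'| * K) * dist x y := by ring
  · rw [Pi.mul_apply, abs_mul]
    have h3 : |f x| ≤ |C| := (hC x).trans (le_abs_self C)
    have h4 : |g x| ≤ |C'| := (hC' x).trans (le_abs_self C')
    gcongr

/-- cut-off functions -/
noncomputable def chi {E : Type} [PseudoMetricSpace E] (x : E) (r : ℝ) (j : ℕ) (y : E) : ℝ :=
  min 1 ((j : ℝ) * max 0 (r - dist y x))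

lemma chi_lip {E : Type} [PseudoMetricSpace E] (x : E) (r : ℝ) (j : ℕ) :
    LipschitzWith (j : ℝ≥0) (chi x r j) := by
  have h1 : LipschitzWith 1 fun y : E => max 0 (r - dist y x) := by
    refine LipschitzWith.const_max ?_ 0
    refine LipschitzWith.of_dist_le_mul fun y z => ?_
    rw [Real.dist_eq]
    have : r - dist y x - (r - dist z x) = dist z x - dist y x := by ring
    rw [this, NNReal.coe_one, one_mul, dist_comm y z]
    exact abs_dist_sub_le z y x
  have h2 : LipschitzWith (j : ℝ≥0) fun y : E => (j : ℝ) * max 0 (r - dist y x) := by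
    refine LipschitzWith.of_dist_le_mul fun y z => ?_
    have h3 := h1.dist_le_mul y z
    rw [Real.dist_eq] at h3 ⊢
    rw [← mul_sub, abs_mul, abs_of_nonneg (by positivity)]
    rw [NNReal.coe_one, one_mul] at h3
    have : ((j : ℝ≥0) : ℝ) = (j : ℝ) := by simp
    rw [this]
    gcongr
  exact h2.const_min 1

lemma chi_nonneg {E : Type} [PseudoMetricSpace E] (x : E) (r : ℝ) (j : ℕ) (y : E) :
    0 ≤ chi x r j y := by unfold chi; positivity

lemma chi_le {E : Type} [PseudoMetricSpace E] (x : E) (r : ℝ) (j : ℕ) (y : E) :
    chi x r j y ≤ 1 := min_le_left _ _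

lemma chi_out {E : Type} [PseudoMetricSpace E] (x : E) (r : ℝ) (j : ℕ) (y : E)
    (h : ¬ dist y x < r) : chi x r j y = 0 := by
  unfold chi
  rw [max_eq_left (by linarith), mul_zero]
  simp

theorem main : Pool.Agent.W674.LVF.S_supp := by
  intro n X _ _ _ T x hT hd r hr
  by_contra hcon
  push Not at hcon
  obtain ⟨ν, hν, hctl⟩ := hT.finite_mass
  have hν' : Controls T (ν.restrict (Metric.ball x r)ᶜ) := by
    refine ⟨inferInstance, fun f π K hf hπ => ?_⟩
    have hπ' : ∀ i, Lip (π i) := fun i => ⟨K i, hπ i⟩
    obtain ⟨C, hC⟩ := hf.2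
    have hfc : Continuous f := hf.1.choose_spec.continuous
    have hstep : ∀ j : ℕ, |T f π| ≤ (∏ i, (K i : ℝ)) * ∫ y, |(f * (1 - chi x r j)) y| ∂ν := by
      intro j
      have hchi : BLip (chi x r j) := ⟨⟨_, chi_lip x r j⟩, 1, fun y => by
        rw [abs_of_nonneg (chi_nonneg x r j y)]; exact chi_le x r j y⟩
      have hchi' : BLip (1 - chi x r j) := by
        refine ⟨⟨(j : ℝ≥0), LipschitzWith.of_dist_le_mul fun y z => ?_⟩, 1, fun y => ?_⟩
        · have h3 := (chi_lip x r j).dist_le_mul y z
          rw [Real.dist_eq] at h3 ⊢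
          have : (1 - chi x r j) y - (1 - chi x r j) z = -(chi x r j y - chi x r j z) := by
            simp only [Pi.sub_apply, Pi.one_apply]; ring
          rw [this, abs_neg]; exact h3
        · have h1 := chi_nonneg x r j y
          have h2 := chi_le x r j y
          simp only [Pi.sub_apply, Pi.one_apply]
          rw [abs_of_nonneg (by linarith)]; linarith
      have e1 : f = f * chi x r j + f * (1 - chi x r j) := by ring
      have e2 : T f π = T (f * chi x r j) π + T (f * (1 - chi x r j)) π := by
        conv_lhs => rw [e1]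
        exact hT.add_left _ _ _ (BLip.mul hf hchi) (BLip.mul hf hchi') hπ'
      have e3 : T (f * chi x r j) π = 0 := by
        apply hcon _ _ (BLip.mul hf hchi) hπ'
        intro y hy
        by_contra hyr
        apply hy
        rw [Pi.mul_apply, chi_out x r j y hyr, mul_zero]
      rw [e2, e3, zero_add]
      exact hctl _ _ K (BLip.mul hf hchi') hπ
    have hlim : Tendsto (fun j : ℕ => ∫ y, |(f * (1 - chi x r j)) y| ∂ν) atTop
        (𝓝 (∫ y, (Metric.ball x r)ᶜ.indicator (fun y => |f y|) y ∂ν)) := by
      refine tendsto_integral_of_dominated_convergence (fun _ => C) ?_ (integrable_const _) ?_ ?_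
      · intro j
        have : Continuous fun y => |(f * (1 - chi x r j)) y| := by
          have h1 : Continuous (chi x r j) := (chi_lip x r j).continuous
          have h2 : Continuous (f * (1 - chi x r j)) := hfc.mul (continuous_const.sub h1)
          exact h2.abs
        exact this.aestronglyMeasurable
      · intro j
        refine Eventually.of_forall fun y => ?_
        rw [Real.norm_eq_abs, abs_abs, Pi.mul_apply, abs_mul]
        have h1 := chi_nonneg x r j y
        have h2 := chi_le x r j y
        have h3 : |(1 - chi x r j) y| ≤ 1 := by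
          simp only [Pi.sub_apply, Pi.one_apply]
          rw [abs_of_nonneg (by linarith)]; linarith
        calc |f y| * |(1 - chi x r j) y| ≤ |f y| * 1 := by gcongr
          _ ≤ C := by rw [mul_one]; exact hC y
      · refine Eventually.of_forall fun y => ?_
        by_cases hy : dist y x < r
        · have h0 : (Metric.ball x r)ᶜ.indicator (fun y => |f y|) y = 0 := by
            rw [indicator_of_notMem]
            rw [mem_compl_iff, not_not]; exact hy
          rw [h0]
          apply tendsto_const_nhds.congr'
          have hpos : 0 < r - dist y x := by linarith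
          filter_upwards [eventually_ge_atTop ⌈(r - dist y x)⁻¹⌉₊] with j hj
          have h1 : (r - dist y x)⁻¹ ≤ j := (Nat.le_ceil _).trans (by exact_mod_cast hj)
          have h2 : 1 ≤ (j : ℝ) * (r - dist y x) := by
            rwa [inv_le_iff_one_le_mul₀ hpos] at h1
          have h3 : chi x r j y = 1 := by
            unfold chi
            rw [max_eq_right hpos.le, min_eq_left h2]
          rw [Pi.mul_apply, Pi.sub_apply, h3]
          simp
        · have h0 : (Metric.ball x r)ᶜ.indicator (fun y => |f y|) y = |f y| := by
            rw [indicator_of_mem]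
            exact hy
          rw [h0]
          apply tendsto_const_nhds.congr
          intro j
          rw [Pi.mul_apply, Pi.sub_apply, chi_out x r j y hy]
          simp
    rw [← integral_indicator Metric.isOpen_ball.measurableSet.compl]
    exact ge_of_tendsto' (hlim.const_mul _) hstep
  have hle : massMeasure T ≤ ν.restrict (Metric.ball x r)ᶜ := sInf_le hν'
  have hz : lowerDensity T x = 0 := by
    unfold lowerDensity
    have h1 : ∀ᶠ s in 𝓝[>] (0 : ℝ),
        massMeasure T (Metric.closedBall x s) / ENNReal.ofReal (s ^ n) = 0 := by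
      filter_upwards [Ioo_mem_nhdsGT hr] with s hs
      have h2 : massMeasure T (Metric.closedBall x s) = 0 := by
        refine le_antisymm ?_ (zero_le)
        refine (hle _).trans ?_
        rw [Measure.restrict_apply Metric.isClosed_closedBall.measurableSet]
        have : Metric.closedBall x s ∩ (Metric.ball x r)ᶜ = ∅ := by
          ext y
          simp only [mem_inter_iff, Metric.mem_closedBall, mem_compl_iff, Metric.mem_ball,
            mem_empty_iff_false, iff_false, not_and, not_not]
          intro hy; exact hy.trans_lt hs.2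
        rw [this, measure_empty]
      rw [h2, ENNReal.zero_div]
    rw [liminf_congr h1]
    exact liminf_const 0
  rw [hz] at hd
  exact lt_irrefl _ hd

end Pool.Agent.W338.LVFsupp
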